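import Mathlib
import Pool.Agent.Lib.MP_81ecef_ag.L3.Seq

/-! Odd endomorphisms of the elliptic curve `y ^ 2 = x ^ 3 - x`, written as binary forms. -/

namespace Pool.Agent.Lib.MP_81ecef_ag.K4

open Pool.Agent.Lib.MP_81ecef_ag.L3

/-- Evaluation of a binary form in a commutative algebra. -/
noncomputable def ev {R : Type} [CommRing R] [Algebra ℂ R] (f : MvPolynomial (Fin 2) ℂ)
    (t s : R) : R := MvPolynomial.aeval ![t, s] f

section
variable {R : Type} [CommRing R] [Algebra ℂ R]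

theorem map_ev {S : Type} [CommRing S] [Algebra ℂ S] (φ : R →ₐ[ℂ] S) (f : MvPolynomial (Fin 2) ℂ)
    (t s : R) : φ (ev f t s) = ev f (φ t) (φ s) := by
  rw [ev, ev, ← AlgHom.comp_apply, MvPolynomial.comp_aeval]
  congr 2
  funext i
  fin_cases i <;> rfl

theorem ev_mul (f g : MvPolynomial (Fin 2) ℂ) (t s : R) :
    ev (f * g) t s = ev f t s * ev g t s := map_mul _ _ _

theorem ev_ev (f a b : MvPolynomial (Fin 2) ℂ) (t s : R) :
    ev (ev f a b) t s = ev f (ev a t s) (ev b t s) := map_ev (MvPolynomial.aeval ![t, s]) f a b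

theorem ev_sum (f : MvPolynomial (Fin 2) ℂ) (t s : R) :
    ev f t s = ∑ d ∈ f.support, algebraMap ℂ R (f.coeff d) * (t ^ d 0 * s ^ d 1) := by
  rw [ev, MvPolynomial.aeval_def, MvPolynomial.eval₂_eq']
  simp [Fin.prod_univ_two]

theorem deg_eq {f : MvPolynomial (Fin 2) ℂ} {n : ℕ} (hf : f.IsHomogeneous n) {d : Fin 2 →₀ ℕ}
    (hd : d ∈ f.support) : d 0 + d 1 = n := by
  have := hf (MvPolynomial.mem_support_iff.1 hd)
  simpa [Finsupp.weight_apply, Finsupp.sum_fintype, Fin.sum_univ_two] using this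

theorem ev_smul {f : MvPolynomial (Fin 2) ℂ} {n : ℕ} (hf : f.IsHomogeneous n) (c t s : R) :
    ev f (c * t) (c * s) = c ^ n * ev f t s := by
  rw [ev_sum, ev_sum, Finset.mul_sum]
  refine Finset.sum_congr rfl fun d hd => ?_
  rw [← deg_eq hf hd]
  ring

theorem ev_mem {f : MvPolynomial (Fin 2) ℂ} {n : ℕ} (hf : f.IsHomogeneous n) {I : Ideal R}
    {t s : R} (ht : t ∈ I) (hs : s ∈ I) : ev f t s ∈ I ^ n := by
  rw [ev_sum]
  refine Ideal.sum_mem _ fun d hd => Ideal.mul_mem_left _ _ ?_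
  rw [← deg_eq hf hd, pow_add]
  exact Ideal.mul_mem_mul (Ideal.pow_mem_pow ht _) (Ideal.pow_mem_pow hs _)

theorem ev_isHomogeneous {f : MvPolynomial (Fin 2) ℂ} {n : ℕ} (hf : f.IsHomogeneous n) {σ : Type}
    {t s : MvPolynomial σ ℂ} {m : ℕ} (ht : t.IsHomogeneous m) (hs : s.IsHomogeneous m) :
    (ev f t s).IsHomogeneous (m * n) :=
  hf.aeval _ fun i => by fin_cases i <;> assumption

end

/-- The three quadratic forms whose squares give the duplication formula. -/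
def q0 {R : Type} [CommRing R] (x z : R) : R := x ^ 2 + z ^ 2
/-- The second quadratic form. -/
def q1 {R : Type} [CommRing R] (x z : R) : R := x ^ 2 - 2 * x * z - z ^ 2
/-- The third quadratic form. -/
def q2 {R : Type} [CommRing R] (x z : R) : R := x ^ 2 + 2 * x * z - z ^ 2

/-- Four binary forms. -/
structure Dat where
  /-- square root over `0` -/
  P0 : MvPolynomial (Fin 2) ℂ
  /-- square root over `1` -/
  P1 : MvPolynomial (Fin 2) ℂ
  /-- square root over `-1` -/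
  P2 : MvPolynomial (Fin 2) ℂ
  /-- square root over infinity -/
  T : MvPolynomial (Fin 2) ℂ

/-- Numerator of the map. -/
noncomputable def Dat.ta {R : Type} [CommRing R] [Algebra ℂ R] (D : Dat) (t s : R) : R :=
  t * ev D.P0 t s ^ 2
/-- Denominator of the map. -/
noncomputable def Dat.si {R : Type} [CommRing R] [Algebra ℂ R] (D : Dat) (t s : R) : R :=
  s * ev D.T t s ^ 2

/-- The identities satisfied by an odd endomorphism of degree `2 n + 1`. -/
structure Side (n : ℕ) (D : Dat) : Prop where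
  h0 : D.P0.IsHomogeneous n
  h1 : D.P1.IsHomogeneous n
  h2 : D.P2.IsHomogeneous n
  hT : D.T.IsHomogeneous n
  i1 : ∀ {R : Type} [CommRing R] [Algebra ℂ R] (t s : R),
    D.ta t s - D.si t s = (t - s) * ev D.P1 t s ^ 2
  i2 : ∀ {R : Type} [CommRing R] [Algebra ℂ R] (t s : R),
    D.ta t s + D.si t s = (t + s) * ev D.P2 t s ^ 2
  nz : ∀ t s : ℂ, D.ta t s = 0 → D.si t s = 0 → t = 0 ∧ s = 0
  one : ev D.P0 (1 : ℂ) 0 = 1
  d0 : ∀ {R : Type} [CommRing R] [Algebra ℂ R] (x z : R), q0 (D.ta x z) (D.si x z) =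
    q0 x z * ev D.P0 (q0 x z ^ 2) (q0 x z ^ 2 - q1 x z ^ 2)
  d1 : ∀ {R : Type} [CommRing R] [Algebra ℂ R] (x z : R), q1 (D.ta x z) (D.si x z) =
    q1 x z * ev D.P1 (q0 x z ^ 2) (q0 x z ^ 2 - q1 x z ^ 2)
  d2 : ∀ {R : Type} [CommRing R] [Algebra ℂ R] (x z : R), q2 (D.ta x z) (D.si x z) =
    q2 x z * ev D.P2 (q0 x z ^ 2) (q0 x z ^ 2 - q1 x z ^ 2)

open MvPolynomial in
/-- Composition of two maps. -/
noncomputable def Dat.comp (D E : Dat) : Dat where
  P0 := D.P0 * ev E.P0 (D.ta (X 0) (X 1)) (D.si (X 0) (X 1))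
  P1 := D.P1 * ev E.P1 (D.ta (X 0) (X 1)) (D.si (X 0) (X 1))
  P2 := D.P2 * ev E.P2 (D.ta (X 0) (X 1)) (D.si (X 0) (X 1))
  T := D.T * ev E.T (D.ta (X 0) (X 1)) (D.si (X 0) (X 1))

section
variable {R : Type} [CommRing R] [Algebra ℂ R]

theorem map_ta {S : Type} [CommRing S] [Algebra ℂ S] (φ : R →ₐ[ℂ] S) (D : Dat) (t s : R) :
    φ (D.ta t s) = D.ta (φ t) (φ s) := by
  simp only [Dat.ta, map_mul, map_pow, map_ev]

theorem map_si {S : Type} [CommRing S] [Algebra ℂ S] (φ : R →ₐ[ℂ] S) (D : Dat) (t s : R) :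
    φ (D.si t s) = D.si (φ t) (φ s) := by
  simp only [Dat.si, map_mul, map_pow, map_ev]

theorem ev_comp (D : Dat) (f g : MvPolynomial (Fin 2) ℂ) (t s : R) :
    ev (f * ev g (D.ta (MvPolynomial.X 0) (MvPolynomial.X 1))
      (D.si (MvPolynomial.X 0) (MvPolynomial.X 1))) t s =
      ev f t s * ev g (D.ta t s) (D.si t s) := by
  rw [ev_mul, ev_ev]
  have e1 : ev (D.ta (MvPolynomial.X 0) (MvPolynomial.X 1)) t s = D.ta t s := by
    rw [ev, map_ta]
    simp
  have e2 : ev (D.si (MvPolynomial.X 0) (MvPolynomial.X 1)) t s = D.si t s := by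
    rw [ev, map_si]
    simp
  rw [e1, e2]

theorem comp_ta (D E : Dat) (t s : R) : (D.comp E).ta t s = E.ta (D.ta t s) (D.si t s) := by
  rw [Dat.ta, Dat.comp, ev_comp, Dat.ta.eq_1 E, Dat.ta.eq_1 D]
  ring

theorem comp_si (D E : Dat) (t s : R) : (D.comp E).si t s = E.si (D.ta t s) (D.si t s) := by
  rw [Dat.si, Dat.comp, ev_comp, Dat.si.eq_1 E, Dat.si.eq_1 D]
  ring

end

theorem Side.ta_hom {n : ℕ} {D : Dat} (h : Side n D) {σ : Type} {t s : MvPolynomial σ ℂ} {m : ℕ}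
    (ht : t.IsHomogeneous m) (hs : s.IsHomogeneous m) :
    (D.ta t s).IsHomogeneous (m * (2 * n + 1)) := by
  have := ht.mul ((ev_isHomogeneous h.h0 ht hs).pow 2)
  rwa [show m + m * n * 2 = m * (2 * n + 1) by ring] at this

theorem Side.si_hom {n : ℕ} {D : Dat} (h : Side n D) {σ : Type} {t s : MvPolynomial σ ℂ} {m : ℕ}
    (ht : t.IsHomogeneous m) (hs : s.IsHomogeneous m) :
    (D.si t s).IsHomogeneous (m * (2 * n + 1)) := by
  have := hs.mul ((ev_isHomogeneous h.hT ht hs).pow 2)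
  rwa [show m + m * n * 2 = m * (2 * n + 1) by ring] at this

theorem Side.comp {n m : ℕ} {D E : Dat} (h : Side n D) (k : Side m E) :
    Side (n + (2 * n + 1) * m) (D.comp E) := by
  have ht := h.ta_hom (MvPolynomial.isHomogeneous_X ℂ (0 : Fin 2)) (MvPolynomial.isHomogeneous_X ℂ 1)
  have hs := h.si_hom (MvPolynomial.isHomogeneous_X ℂ (0 : Fin 2)) (MvPolynomial.isHomogeneous_X ℂ 1)
  rw [one_mul] at ht hs
  have dup : ∀ {R : Type} [CommRing R] [Algebra ℂ R] (x z : R),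
      q0 (D.ta x z) (D.si x z) ^ 2 = D.ta (q0 x z ^ 2) (q0 x z ^ 2 - q1 x z ^ 2) ∧
      q0 (D.ta x z) (D.si x z) ^ 2 - q1 (D.ta x z) (D.si x z) ^ 2 =
        D.si (q0 x z ^ 2) (q0 x z ^ 2 - q1 x z ^ 2) := by
    intro R _ _ x z
    have e0 : q0 (D.ta x z) (D.si x z) ^ 2 = D.ta (q0 x z ^ 2) (q0 x z ^ 2 - q1 x z ^ 2) := by
      rw [h.d0, Dat.ta]
      ring
    refine ⟨e0, ?_⟩
    rw [e0, h.d1]
    linear_combination h.i1 (q0 x z ^ 2) (q0 x z ^ 2 - q1 x z ^ 2)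
  refine ⟨h.h0.mul (ev_isHomogeneous k.h0 ht hs), h.h1.mul (ev_isHomogeneous k.h1 ht hs),
    h.h2.mul (ev_isHomogeneous k.h2 ht hs), h.hT.mul (ev_isHomogeneous k.hT ht hs),
    ?_, ?_, ?_, ?_, ?_, ?_, ?_⟩
  · intro R _ _ t s
    rw [comp_ta, comp_si, k.i1, h.i1, Dat.comp, ev_comp]
    ring
  · intro R _ _ t s
    rw [comp_ta, comp_si, k.i2, h.i2, Dat.comp, ev_comp]
    ring
  · intro t s h1 h2
    rw [comp_ta] at h1
    rw [comp_si] at h2
    exact h.nz t s (k.nz _ _ h1 h2).1 (k.nz _ _ h1 h2).2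
  · rw [Dat.comp, ev_comp, Dat.ta, Dat.si, h.one]
    simp [k.one]
  · intro R _ _ x z
    rw [comp_ta, comp_si, k.d0, (dup x z).2, (dup x z).1, h.d0, Dat.comp, ev_comp, mul_assoc]
  · intro R _ _ x z
    rw [comp_ta, comp_si, k.d1, (dup x z).2, (dup x z).1, h.d1, Dat.comp, ev_comp, mul_assoc]
  · intro R _ _ x z
    rw [comp_ta, comp_si, k.d2, (dup x z).2, (dup x z).1, h.d2, Dat.comp, ev_comp, mul_assoc]

theorem side_id : Side 0 ⟨1, 1, 1, 1⟩ := by
  have h := MvPolynomial.isHomogeneous_one (Fin 2) ℂ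
  refine ⟨h, h, h, h, ?_, ?_, ?_, ?_, ?_, ?_, ?_⟩ <;> intros <;> simp_all [Dat.ta, Dat.si, ev]

open MvPolynomial in
/-- A binary quartic form. -/
noncomputable def quart (a b c d e : ℂ) : MvPolynomial (Fin 2) ℂ :=
  C a * X 0 ^ 4 + C b * (X 0 ^ 3 * X 1) + C c * (X 0 ^ 2 * X 1 ^ 2) + C d * (X 0 * X 1 ^ 3) +
    C e * X 1 ^ 4

open MvPolynomial in
/-- A binary quadratic form. -/
noncomputable def quad (a b c : ℂ) : MvPolynomial (Fin 2) ℂ :=
  C a * X 0 ^ 2 + C b * (X 0 * X 1) + C c * X 1 ^ 2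

open MvPolynomial in
theorem quart_hom (a b c d e : ℂ) : (quart a b c d e).IsHomogeneous 4 := by
  have h0 := isHomogeneous_X ℂ (0 : Fin 2)
  have h1 := isHomogeneous_X ℂ (1 : Fin 2)
  exact (((((h0.pow 4).C_mul a).add (((h0.pow 3).mul h1).C_mul b)).add
    (((h0.pow 2).mul (h1.pow 2)).C_mul c)).add ((h0.mul (h1.pow 3)).C_mul d)).add
    ((h1.pow 4).C_mul e)

open MvPolynomial in
theorem quad_hom (a b c : ℂ) : (quad a b c).IsHomogeneous 2 := by
  have h0 := isHomogeneous_X ℂ (0 : Fin 2)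
  have h1 := isHomogeneous_X ℂ (1 : Fin 2)
  exact (((h0.pow 2).C_mul a).add ((h0.mul h1).C_mul b)).add ((h1.pow 2).C_mul c)

theorem ev_quart {R : Type} [CommRing R] [Algebra ℂ R] (a b c d e : ℂ) (t s : R) :
    ev (quart a b c d e) t s = algebraMap ℂ R a * t ^ 4 + algebraMap ℂ R b * (t ^ 3 * s) +
      algebraMap ℂ R c * (t ^ 2 * s ^ 2) + algebraMap ℂ R d * (t * s ^ 3) +
      algebraMap ℂ R e * s ^ 4 := by
  simp [ev, quart]

theorem ev_quad {R : Type} [CommRing R] [Algebra ℂ R] (a b c : ℂ) (t s : R) :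
    ev (quad a b c) t s = algebraMap ℂ R a * t ^ 2 + algebraMap ℂ R b * (t * s) +
      algebraMap ℂ R c * s ^ 2 := by
  simp [ev, quad]

theorem side_nine : Side 4 ⟨quart 1 0 6 0 (-3), quart 1 (-4) (-6) (-4) 1, quart 1 4 (-6) 4 1,
    quart 3 0 (-6) 0 (-1)⟩ := by
  refine ⟨quart_hom .., quart_hom .., quart_hom .., quart_hom .., ?_, ?_, ?_, ?_, ?_, ?_, ?_⟩
  · intro R _ _ t s
    simp only [Dat.ta, Dat.si, ev_quart, map_neg, map_one, map_zero, map_ofNat]
    ring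
  · intro R _ _ t s
    simp only [Dat.ta, Dat.si, ev_quart, map_neg, map_one, map_zero, map_ofNat]
    ring
  · intro t s h1 h2
    simp only [Dat.ta, Dat.si, ev_quart, map_neg, map_one, map_zero, map_ofNat, mul_eq_zero,
      pow_eq_zero_iff two_ne_zero] at h1 h2
    have hs : s = 0 := by
      rcases h2 with h2 | h2
      · exact h2
      · rcases h1 with h1 | h1
        · rw [h1] at h2
          exact pow_eq_zero_iff (n := 4) (by norm_num) |>.1 (by linear_combination -h2)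
        · exact pow_eq_zero_iff (n := 6) (by norm_num) |>.1 (by
            linear_combination ((-9 * t ^ 2 + 15 * s ^ 2) * h1 + (3 * t ^ 2 + 19 * s ^ 2) * h2)
              / (-64))
    refine ⟨?_, hs⟩
    rcases h1 with h1 | h1
    · exact h1
    · rw [hs] at h1
      exact pow_eq_zero_iff (n := 4) (by norm_num) |>.1 (by linear_combination h1)
  · simp [ev_quart]
  · intro R _ _ x z
    simp only [Dat.ta, Dat.si, ev_quart, map_neg, map_one, map_zero, map_ofNat, q0, q1]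
    ring
  · intro R _ _ x z
    simp only [Dat.ta, Dat.si, ev_quart, map_neg, map_one, map_zero, map_ofNat, q0, q1]
    ring
  · intro R _ _ x z
    simp only [Dat.ta, Dat.si, ev_quart, map_neg, map_one, map_zero, map_ofNat, q0, q1, q2]
    ring

theorem side_five : Side 2 ⟨quad 1 0 (-(1 + 2 * Complex.I)), quad 1 (2 - 2 * Complex.I) 1,
    quad 1 (-2 + 2 * Complex.I) 1, quad (1 + 2 * Complex.I) 0 (-1)⟩ := by
  have hj : ∀ (R : Type) [CommRing R] [Algebra ℂ R], algebraMap ℂ R Complex.I ^ 2 + 1 = 0 := by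
    intro R _ _
    rw [← map_pow, Complex.I_sq, map_neg, map_one, neg_add_cancel]
  refine ⟨quad_hom .., quad_hom .., quad_hom .., quad_hom .., ?_, ?_, ?_, ?_, ?_, ?_, ?_⟩
  · intro R _ _ t s
    have h := hj R
    simp only [Dat.ta, Dat.si, ev_quad, map_neg, map_one, map_zero, map_ofNat, map_add, map_sub,
      map_mul]
    generalize algebraMap ℂ R Complex.I = j at h ⊢
    linear_combination ((-4)*t^4*s + (-4)*t^3*s^2 + (4)*t^2*s^3 + (4)*t*s^4) * h
  · intro R _ _ t s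
    have h := hj R
    simp only [Dat.ta, Dat.si, ev_quad, map_neg, map_one, map_zero, map_ofNat, map_add, map_sub,
      map_mul]
    generalize algebraMap ℂ R Complex.I = j at h ⊢
    linear_combination ((4)*t^4*s + (-4)*t^3*s^2 + (-4)*t^2*s^3 + (4)*t*s^4) * h
  · intro t s h1 h2
    simp only [Dat.ta, Dat.si, ev_quad, Algebra.algebraMap_self, RingHom.id_apply, mul_eq_zero,
      pow_eq_zero_iff two_ne_zero] at h1 h2
    have hs : s = 0 := by
      rcases h2 with h2 | h2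
      · exact h2
      · rcases h1 with h1 | h1
        · rw [h1] at h2
          exact pow_eq_zero_iff (n := 2) (by norm_num) |>.1 (by linear_combination -h2)
        · have h3 : (Complex.I - 1) * s ^ 2 = 0 := by
            linear_combination (h2 - (1 + 2 * Complex.I) * h1) / 4 - s ^ 2 * Complex.I_sq
          have h4 : Complex.I - 1 ≠ 0 := fun h => by simpa using congrArg Complex.re h
          exact pow_eq_zero_iff (n := 2) (by norm_num) |>.1 ((mul_eq_zero.1 h3).resolve_left h4)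
    refine ⟨?_, hs⟩
    rcases h1 with h1 | h1
    · exact h1
    · rw [hs] at h1
      exact pow_eq_zero_iff (n := 2) (by norm_num) |>.1 (by linear_combination h1)
  · simp [ev_quad]
  · intro R _ _ x z
    have h := hj R
    simp only [Dat.ta, Dat.si, ev_quad, map_neg, map_one, map_zero, map_ofNat, map_add, map_sub,
      map_mul, q0, q1]
    generalize algebraMap ℂ R Complex.I = j at h ⊢
    linear_combination ((16)*j^2*x^8*z^2 + (16)*j^2*x^2*z^8 + (32)*j*x^8*z^2 + (-32)*j*x^6*z^4 + (-32)*j*x^4*z^6 + (32)*j*x^2*z^8 + (8)*x^8*z^2 + (-24)*x^6*z^4 + (-24)*x^4*z^6 + (8)*x^2*z^8) * h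
  · intro R _ _ x z
    have h := hj R
    simp only [Dat.ta, Dat.si, ev_quad, map_neg, map_one, map_zero, map_ofNat, map_add, map_sub,
      map_mul, q0, q1]
    generalize algebraMap ℂ R Complex.I = j at h ⊢
    linear_combination ((-16)*j^2*x^8*z^2 + (-32)*j^2*x^5*z^5 + (16)*j^2*x^2*z^8 + (-32)*j*x^8*z^2 + (32)*j*x^7*z^3 + (32)*j*x^6*z^4 + (-64)*j*x^5*z^5 + (-32)*j*x^4*z^6 + (32)*j*x^3*z^7 + (32)*j*x^2*z^8 + (-8)*x^9*z + (-8)*x^8*z^2 + (48)*x^7*z^3 + (72)*x^6*z^4 + (-48)*x^5*z^5 + (-72)*x^4*z^6 + (48)*x^3*z^7 + (8)*x^2*z^8 + (-8)*x*z^9) * h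
  · intro R _ _ x z
    have h := hj R
    simp only [Dat.ta, Dat.si, ev_quad, map_neg, map_one, map_zero, map_ofNat, map_add, map_sub,
      map_mul, q0, q1, q2]
    generalize algebraMap ℂ R Complex.I = j at h ⊢
    linear_combination ((-16)*j^2*x^8*z^2 + (32)*j^2*x^5*z^5 + (16)*j^2*x^2*z^8 + (-32)*j*x^8*z^2 + (-32)*j*x^7*z^3 + (32)*j*x^6*z^4 + (64)*j*x^5*z^5 + (-32)*j*x^4*z^6 + (-32)*j*x^3*z^7 + (32)*j*x^2*z^8 + (8)*x^9*z + (-8)*x^8*z^2 + (-48)*x^7*z^3 + (72)*x^6*z^4 + (48)*x^5*z^5 + (-72)*x^4*z^6 + (-48)*x^3*z^7 + (8)*x^2*z^8 + (8)*x*z^9) * h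

theorem exists_side {m : ℕ} {E : Dat} (hE : Side m E) (k : ℕ) :
    ∃ (n : ℕ) (D : Dat), 2 * n + 1 = (2 * m + 1) ^ k ∧ Side n D := by
  induction k with
  | zero => exact ⟨0, _, rfl, side_id⟩
  | succ k ih =>
    obtain ⟨n, D, hn, hD⟩ := ih
    exact ⟨_, _, by rw [pow_succ, ← hn]; ring, hD.comp hE⟩

end Pool.Agent.Lib.MP_81ecef_ag.K4
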