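import Mathlib
import Pool.Agent.Lib.MP_81ecef_ag.K4.Side

/-! The equation of the plane curve and its algebraic properties. -/

namespace Pool.Agent.Lib.MP_81ecef_ag.K4

section Defs
variable {R : Type} [CommRing R]

/-- First quadric. -/
def b0 (u1 u2 : R) : R := u1 ^ 2 + 2 * u2 ^ 2
/-- Second quadric. -/
def b1 (u0 u2 : R) : R := 2 * u0 ^ 2 + u2 ^ 2
/-- Third quadric. -/
def b2 (u0 u1 : R) : R := 4 * u0 ^ 2 - u1 ^ 2
/-- First quartic. -/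
def tA (u0 u1 u2 : R) : R := u0 ^ 2 * b0 u1 u2
/-- Second quartic. -/
def sA (u0 u1 u2 : R) : R := u0 ^ 2 * b0 u1 u2 - u1 ^ 2 * b1 u0 u2
/-- Difference of the first two quadrics. -/
def sB (u0 u1 u2 : R) : R := b1 u0 u2 - b0 u1 u2
/-- The shape of the equation. -/
def GG (t s t' s' g01 g02 g12 : R) : R :=
  12 * (t * t') - 12 * (t * s') - 12 * (s * t') + 5 * (s * s') - 20 * g01 + 4 * g02 + 4 * g12

variable [Algebra ℂ R]

/-- Evaluation on the first side. -/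
noncomputable def eA (f : MvPolynomial (Fin 2) ℂ) (u0 u1 u2 : R) : R :=
  ev f (tA u0 u1 u2) (sA u0 u1 u2)
/-- Evaluation on the second side. -/
noncomputable def eB (f : MvPolynomial (Fin 2) ℂ) (u0 u1 u2 : R) : R :=
  ev f (b1 u0 u2) (sB u0 u1 u2)

/-- The equation of the curve. -/
noncomputable def FF (D E : Dat) (u0 u1 u2 : R) : R :=
  GG (D.ta (tA u0 u1 u2) (sA u0 u1 u2)) (D.si (tA u0 u1 u2) (sA u0 u1 u2))
    (E.ta (b1 u0 u2) (sB u0 u1 u2)) (E.si (b1 u0 u2) (sB u0 u1 u2))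
    (u0 * u1 * (b0 u1 u2 * b1 u0 u2) * (eA D.P0 u0 u1 u2 * eA D.P1 u0 u1 u2) *
      (eB E.P1 u0 u1 u2 * eB E.P0 u0 u1 u2))
    (u0 * u2 * (b0 u1 u2 * b2 u0 u1) * (eA D.P0 u0 u1 u2 * eA D.P2 u0 u1 u2) *
      (eB E.P1 u0 u1 u2 * eB E.P2 u0 u1 u2))
    (u1 * u2 * (b1 u0 u2 * b2 u0 u1) * (eA D.P1 u0 u1 u2 * eA D.P2 u0 u1 u2) *
      (eB E.P0 u0 u1 u2 * eB E.P2 u0 u1 u2))

end Defs

variable {R : Type} [CommRing R] [Algebra ℂ R]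

theorem map_eA {S : Type} [CommRing S] [Algebra ℂ S] (φ : R →ₐ[ℂ] S) (f : MvPolynomial (Fin 2) ℂ)
    (u0 u1 u2 : R) : φ (eA f u0 u1 u2) = eA f (φ u0) (φ u1) (φ u2) := by
  simp only [eA, map_ev, tA, sA, b0, b1, map_mul, map_pow, map_add, map_sub, map_ofNat]

theorem map_eB {S : Type} [CommRing S] [Algebra ℂ S] (φ : R →ₐ[ℂ] S) (f : MvPolynomial (Fin 2) ℂ)
    (u0 u1 u2 : R) : φ (eB f u0 u1 u2) = eB f (φ u0) (φ u1) (φ u2) := by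
  simp only [eB, map_ev, sB, b0, b1, map_mul, map_pow, map_add, map_sub, map_ofNat]

theorem map_FF {S : Type} [CommRing S] [Algebra ℂ S] (φ : R →ₐ[ℂ] S) (D E : Dat) (u0 u1 u2 : R) :
    φ (FF D E u0 u1 u2) = FF D E (φ u0) (φ u1) (φ u2) := by
  simp only [FF, GG, map_eA, map_eB, map_ta, map_si, tA, sA, sB, b0, b1, b2, map_mul, map_pow,
    map_add, map_sub, map_ofNat]

omit [Algebra ℂ R] in
theorem GG_mem {I : Ideal R} {t s t' s' g01 g02 g12 : R} (h1 : t * t' ∈ I) (h2 : t * s' ∈ I)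
    (h3 : s * t' ∈ I) (h4 : s * s' ∈ I) (h5 : g01 ∈ I) (h6 : g02 ∈ I) (h7 : g12 ∈ I) :
    GG t s t' s' g01 g02 g12 ∈ I :=
  I.add_mem (I.add_mem (I.sub_mem (I.add_mem (I.sub_mem (I.sub_mem (I.mul_mem_left _ h1)
    (I.mul_mem_left _ h2)) (I.mul_mem_left _ h3)) (I.mul_mem_left _ h4)) (I.mul_mem_left _ h5))
    (I.mul_mem_left _ h6)) (I.mul_mem_left _ h7)

omit [Algebra ℂ R] in
theorem mulm {I : Ideal R} {a b : R} {j k : ℕ} (ha : a ∈ I ^ j) (hb : b ∈ I ^ k) :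
    a * b ∈ I ^ (j + k) := by
  rw [pow_add]
  exact Ideal.mul_mem_mul ha hb

variable {n m : ℕ} {D E : Dat}

theorem Side.ta_mem (h : Side n D) {I : Ideal R} {t s : R} (ht : t ∈ I) (hs : s ∈ I) :
    D.ta t s ∈ I ^ (2 * n + 1) := by
  have h1 := ev_mem h.h0 ht hs
  have := mulm (I := I) (j := 1) (a := t) (by rwa [pow_one]) (mulm h1 h1)
  rwa [← sq, show 1 + (n + n) = 2 * n + 1 by ring] at this

theorem Side.si_mem (h : Side n D) {I : Ideal R} {t s : R} (ht : t ∈ I) (hs : s ∈ I) :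
    D.si t s ∈ I ^ (2 * n + 1) := by
  have h1 := ev_mem h.hT ht hs
  have := mulm (I := I) (j := 1) (a := s) (by rwa [pow_one]) (mulm h1 h1)
  rwa [← sq, show 1 + (n + n) = 2 * n + 1 by ring] at this

theorem FF_mem_q (h : Side n D) (E : Dat) {J : Ideal R} {u0 u1 u2 : R} (ht : tA u0 u1 u2 ∈ J)
    (hs : sA u0 u1 u2 ∈ J) (h01 : u0 * u1 * (b0 u1 u2 * b1 u0 u2) ∈ J)
    (h02 : u0 * u2 * (b0 u1 u2 * b2 u0 u1) ∈ J) (h12 : u1 * u2 * (b1 u0 u2 * b2 u0 u1) ∈ J) :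
    FF D E u0 u1 u2 ∈ J ^ (2 * n + 1) := by
  have a := h.ta_mem ht hs
  have b := h.si_mem ht hs
  have p0 : eA D.P0 u0 u1 u2 ∈ J ^ n := ev_mem h.h0 ht hs
  have p1 : eA D.P1 u0 u1 u2 ∈ J ^ n := ev_mem h.h1 ht hs
  have p2 : eA D.P2 u0 u1 u2 ∈ J ^ n := ev_mem h.h2 ht hs
  have key : ∀ {x p q : R}, x ∈ J → p ∈ J ^ n → q ∈ J ^ n → x * (p * q) ∈ J ^ (2 * n + 1) := by
    intro x p q hx hp hq
    have := mulm (I := J) (j := 1) (a := x) (by rwa [pow_one]) (mulm hp hq)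
    rwa [show 1 + (n + n) = 2 * n + 1 by ring] at this
  exact GG_mem (Ideal.mul_mem_right _ _ a) (Ideal.mul_mem_right _ _ a) (Ideal.mul_mem_right _ _ b)
    (Ideal.mul_mem_right _ _ b) (Ideal.mul_mem_right _ _ (key h01 p0 p1))
    (Ideal.mul_mem_right _ _ (key h02 p0 p2)) (Ideal.mul_mem_right _ _ (key h12 p1 p2))

theorem FF_mem_p (h : Side n D) (k : Side m E) {I : Ideal R} {u0 u1 u2 : R} (h0 : b0 u1 u2 ∈ I)
    (h1 : b1 u0 u2 ∈ I) (h2 : b2 u0 u1 ∈ I) :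
    FF D E u0 u1 u2 ∈ I ^ (2 * n + 1 + (2 * m + 1)) := by
  have ht : tA u0 u1 u2 ∈ I := I.mul_mem_left _ h0
  have hs : sA u0 u1 u2 ∈ I := I.sub_mem (I.mul_mem_left _ h0) (I.mul_mem_left _ h1)
  have hs' : sB u0 u1 u2 ∈ I := I.sub_mem h1 h0
  have a := h.ta_mem ht hs
  have b := h.si_mem ht hs
  have a' := k.ta_mem h1 hs'
  have b' := k.si_mem h1 hs'
  have p0 : eA D.P0 u0 u1 u2 ∈ I ^ n := ev_mem h.h0 ht hs
  have p1 : eA D.P1 u0 u1 u2 ∈ I ^ n := ev_mem h.h1 ht hs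
  have p2 : eA D.P2 u0 u1 u2 ∈ I ^ n := ev_mem h.h2 ht hs
  have r0 : eB E.P0 u0 u1 u2 ∈ I ^ m := ev_mem k.h0 h1 hs'
  have r1 : eB E.P1 u0 u1 u2 ∈ I ^ m := ev_mem k.h1 h1 hs'
  have r2 : eB E.P2 u0 u1 u2 ∈ I ^ m := ev_mem k.h2 h1 hs'
  have key : ∀ {c x y p q p' q' : R}, x ∈ I → y ∈ I → p ∈ I ^ n → q ∈ I ^ n → p' ∈ I ^ m →
      q' ∈ I ^ m → c * (x * y) * (p * q) * (p' * q') ∈ I ^ (2 * n + 1 + (2 * m + 1)) := by
    intro c x y p q p' q' hx hy hp hq hp' hq'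
    have hxy : c * (x * y) ∈ I ^ 2 :=
      Ideal.mul_mem_left _ _ (by rw [sq]; exact Ideal.mul_mem_mul hx hy)
    have := mulm (mulm hxy (mulm hp hq)) (mulm hp' hq')
    rwa [show 2 + (n + n) + (m + m) = 2 * n + 1 + (2 * m + 1) by ring] at this
  exact GG_mem (mulm a a') (mulm a b') (mulm b a') (mulm b b') (key h0 h1 p0 p1 r1 r0)
    (key h0 h2 p0 p2 r1 r2) (key h1 h2 p1 p2 r0 r2)

open MvPolynomial in
theorem FF_isHomogeneous (h : Side n D) (k : Side m E) {σ : Type} {u0 u1 u2 : MvPolynomial σ ℂ}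
    (h0 : u0.IsHomogeneous 1) (h1 : u1.IsHomogeneous 1) (h2 : u2.IsHomogeneous 1) :
    (FF D E u0 u1 u2).IsHomogeneous (4 * (2 * n + 1) + 2 * (2 * m + 1)) := by
  have num : ∀ (c : ℕ) [c.AtLeastTwo] {p : MvPolynomial σ ℂ} {d : ℕ}, p.IsHomogeneous d →
      ((OfNat.ofNat c : MvPolynomial σ ℂ) * p).IsHomogeneous d := by
    intro c _ p d hp
    have := hp.C_mul (OfNat.ofNat c : ℂ)
    rwa [map_ofNat] at this
  have c0 : (b0 u1 u2).IsHomogeneous 2 := (h1.pow 2).add (num 2 (h2.pow 2))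
  have c1 : (b1 u0 u2).IsHomogeneous 2 := (num 2 (h0.pow 2)).add (h2.pow 2)
  have c2 : (b2 u0 u1).IsHomogeneous 2 := (num 4 (h0.pow 2)).sub (h1.pow 2)
  have ht : (tA u0 u1 u2).IsHomogeneous 4 := (h0.pow 2).mul c0
  have hs : (sA u0 u1 u2).IsHomogeneous 4 := ((h0.pow 2).mul c0).sub ((h1.pow 2).mul c1)
  have hs' : (sB u0 u1 u2).IsHomogeneous 2 := c1.sub c0
  have a := h.ta_hom ht hs
  have b := h.si_hom ht hs
  have a' := k.ta_hom c1 hs'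
  have b' := k.si_hom c1 hs'
  have p0 : (eA D.P0 u0 u1 u2).IsHomogeneous (4 * n) := ev_isHomogeneous h.h0 ht hs
  have p1 : (eA D.P1 u0 u1 u2).IsHomogeneous (4 * n) := ev_isHomogeneous h.h1 ht hs
  have p2 : (eA D.P2 u0 u1 u2).IsHomogeneous (4 * n) := ev_isHomogeneous h.h2 ht hs
  have r0 : (eB E.P0 u0 u1 u2).IsHomogeneous (2 * m) := ev_isHomogeneous k.h0 c1 hs'
  have r1 : (eB E.P1 u0 u1 u2).IsHomogeneous (2 * m) := ev_isHomogeneous k.h1 c1 hs'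
  have r2 : (eB E.P2 u0 u1 u2).IsHomogeneous (2 * m) := ev_isHomogeneous k.h2 c1 hs'
  have e : 1 + 1 + (2 + 2) + (4 * n + 4 * n) + (2 * m + 2 * m) =
    4 * (2 * n + 1) + 2 * (2 * m + 1) := by ring
  exact ((((((num 12 (a.mul a')).sub (num 12 (a.mul b'))).sub (num 12 (b.mul a'))).add
    (num 5 (b.mul b'))).sub
    (num 20 (e ▸ (((h0.mul h1).mul (c0.mul c1)).mul (p0.mul p1)).mul (r1.mul r0)))).add
    (num 4 (e ▸ (((h0.mul h2).mul (c0.mul c2)).mul (p0.mul p2)).mul (r1.mul r2)))).add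
    (num 4 (e ▸ (((h1.mul h2).mul (c1.mul c2)).mul (p1.mul p2)).mul (r0.mul r2)))

/-- The relations between the values of the two maps and the square roots. -/
theorem rel (h : Side n D) (k : Side m E) (u0 u1 u2 : R) :
    D.ta (tA u0 u1 u2) (sA u0 u1 u2) = u0 ^ 2 * b0 u1 u2 * eA D.P0 u0 u1 u2 ^ 2 ∧
    D.ta (tA u0 u1 u2) (sA u0 u1 u2) - D.si (tA u0 u1 u2) (sA u0 u1 u2) =
      u1 ^ 2 * b1 u0 u2 * eA D.P1 u0 u1 u2 ^ 2 ∧
    D.ta (tA u0 u1 u2) (sA u0 u1 u2) + D.si (tA u0 u1 u2) (sA u0 u1 u2) =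
      u2 ^ 2 * b2 u0 u1 * eA D.P2 u0 u1 u2 ^ 2 ∧
    E.ta (b1 u0 u2) (sB u0 u1 u2) = b1 u0 u2 * eB E.P0 u0 u1 u2 ^ 2 ∧
    E.ta (b1 u0 u2) (sB u0 u1 u2) - E.si (b1 u0 u2) (sB u0 u1 u2) =
      b0 u1 u2 * eB E.P1 u0 u1 u2 ^ 2 ∧
    E.ta (b1 u0 u2) (sB u0 u1 u2) + E.si (b1 u0 u2) (sB u0 u1 u2) =
      b2 u0 u1 * eB E.P2 u0 u1 u2 ^ 2 := by
  refine ⟨rfl, ?_, ?_, rfl, ?_, ?_⟩
  · rw [h.i1, eA]
    congr 1
    simp only [tA, sA]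
    ring
  · rw [h.i2, eA]
    congr 1
    simp only [tA, sA, b0, b1, b2]
    ring
  · rw [k.i1, eB]
    congr 1
    simp only [sB]
    ring
  · rw [k.i2, eB]
    congr 1
    simp only [sB, b0, b1, b2]
    ring

/-- Multiplicity six. -/
theorem FF_mem_six (h : Side n D) (k : Side m E) {I : Ideal R} [hI : I.IsMaximal] {u0 u1 u2 : R}
    (hT : eA D.T u0 u1 u2 ∈ I) (hU : eB E.T u0 u1 u2 ∈ I)
    (hb : E.ta (b1 u0 u2) (sB u0 u1 u2) ∉ I)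
    (hQ : eB E.P0 u0 u1 u2 * eB E.P1 u0 u1 u2 * eB E.P2 u0 u1 u2 ∉ I) {U0 U1 U2 : R}
    (e0 : U0 = u0 * eA D.P0 u0 u1 u2 * (eB E.P0 u0 u1 u2 * eB E.P2 u0 u1 u2))
    (e1 : U1 = u1 * eA D.P1 u0 u1 u2 * (eB E.P1 u0 u1 u2 * eB E.P2 u0 u1 u2))
    (e2 : U2 = u2 * eA D.P2 u0 u1 u2 * (eB E.P1 u0 u1 u2 * eB E.P0 u0 u1 u2))
    (h01 : U1 + U0 ∉ I) (h02 : U2 + U0 ∉ I) (hb0 : b0 U1 U2 ∉ I) : FF D E u0 u1 u2 ∈ I ^ 6 := by
  obtain ⟨r0, r1, r2, s0, s1, s2⟩ := rel h k u0 u1 u2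
  have hσ : D.si (tA u0 u1 u2) (sA u0 u1 u2) ∈ I ^ 2 :=
    Ideal.mul_mem_left _ _ (Ideal.pow_mem_pow hT 2)
  have hσ' : E.si (b1 u0 u2) (sB u0 u1 u2) ∈ I ^ 2 :=
    Ideal.mul_mem_left _ _ (Ideal.pow_mem_pow hU 2)
  unfold FF
  generalize D.ta (tA u0 u1 u2) (sA u0 u1 u2) = τ at *
  generalize D.si (tA u0 u1 u2) (sA u0 u1 u2) = σ at *
  generalize E.ta (b1 u0 u2) (sB u0 u1 u2) = τ' at *
  generalize E.si (b1 u0 u2) (sB u0 u1 u2) = σ' at *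
  generalize eA D.P0 u0 u1 u2 = p0 at *
  generalize eA D.P1 u0 u1 u2 = p1 at *
  generalize eA D.P2 u0 u1 u2 = p2 at *
  generalize eB E.P0 u0 u1 u2 = c0 at *
  generalize eB E.P1 u0 u1 u2 = c1 at *
  generalize eB E.P2 u0 u1 u2 = c2 at *
  generalize b0 u1 u2 = β0 at *
  generalize b1 u0 u2 = β1 at *
  generalize b2 u0 u1 = β2 at *
  have k0 : U0 ^ 2 * (τ' - σ') = τ * (c0 * c1 * c2) ^ 2 := by rw [e0, s1, r0]; ring
  have k1 : U1 ^ 2 * τ' = (τ - σ) * (c0 * c1 * c2) ^ 2 := by rw [e1, r1, s0]; ring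
  have k2 : U2 ^ 2 * (τ' + σ') = (τ + σ) * (c0 * c1 * c2) ^ 2 := by rw [e2, s2, r2]; ring
  have k01 : U0 * U1 * ((τ' - σ') * τ') =
      u0 * u1 * (β0 * β1) * (p0 * p1) * (c1 * c0) * (c0 * c1 * c2) ^ 2 := by
    rw [e0, e1, s1, s0]; ring
  have k02 : U0 * U2 * ((τ' - σ') * (τ' + σ')) =
      u0 * u2 * (β0 * β2) * (p0 * p2) * (c1 * c2) * (c0 * c1 * c2) ^ 2 := by
    rw [e0, e2, s1, s2]; ring
  have k12 : U1 * U2 * (τ' * (τ' + σ')) =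
      u1 * u2 * (β1 * β2) * (p1 * p2) * (c0 * c2) * (c0 * c1 * c2) ^ 2 := by
    rw [e1, e2, s2, s0]; ring
  generalize u0 * u1 * (β0 * β1) * (p0 * p1) * (c1 * c0) = g01 at *
  generalize u0 * u2 * (β0 * β2) * (p0 * p2) * (c1 * c2) = g02 at *
  generalize u1 * u2 * (β1 * β2) * (p1 * p2) * (c0 * c2) = g12 at *
  generalize c0 * c1 * c2 = Q at *
  have cancel : ∀ {a b : R} {j : ℕ}, a ∉ I → a * b ∈ I ^ j → b ∈ I ^ j := fun ha hab =>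
    (Ideal.IsMaximal.mul_mem_pow I hab).resolve_left ha
  have l1 : U1 - U0 ∈ I ^ 2 := by
    refine cancel h01 (cancel hb ?_)
    have : τ' * ((U1 + U0) * (U1 - U0)) = -Q ^ 2 * σ - U0 ^ 2 * σ' := by
      linear_combination k1 - k0
    rw [this]
    exact Ideal.sub_mem _ (Ideal.mul_mem_left _ _ hσ) (Ideal.mul_mem_left _ _ hσ')
  have l2 : U2 - U0 ∈ I ^ 2 := by
    refine cancel h02 (cancel hb ?_)
    have : τ' * ((U2 + U0) * (U2 - U0)) = Q ^ 2 * σ - (U2 ^ 2 + U0 ^ 2) * σ' := by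
      linear_combination k2 - k0
    rw [this]
    exact Ideal.sub_mem _ (Ideal.mul_mem_left _ _ hσ) (Ideal.mul_mem_left _ _ hσ')
  have m1 : τ' * b0 U1 U2 = (τ' - σ') * b1 U0 U2 := by
    simp only [b0, b1]
    linear_combination k1 + k2 - 2 * k0
  have m2 : (τ' + σ') * b0 U1 U2 = (τ' - σ') * b2 U0 U1 := by
    simp only [b0, b2]
    linear_combination 2 * (k1 + k2 - 2 * k0)
  have g1 : Q ^ 2 * GG τ σ τ' σ' g01 g02 g12 =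
      GG (U0 ^ 2 * (τ' - σ')) (U0 ^ 2 * (τ' - σ') - U1 ^ 2 * τ') τ' (τ' - (τ' - σ'))
        (U0 * U1 * ((τ' - σ') * τ')) (U0 * U2 * ((τ' - σ') * (τ' + σ')))
        (U1 * U2 * (τ' * (τ' + σ'))) := by
    rw [k01, k02, k12, k1, k0, GG, GG]
    ring
  have g2 : ∀ x0 x1 x2 y0 y1 y2 : R, x1 * y0 = x0 * y1 → x2 * y0 = x0 * y2 →
      y0 * (y0 * GG (U0 ^ 2 * x0) (U0 ^ 2 * x0 - U1 ^ 2 * x1) x1 (x1 - x0) (U0 * U1 * (x0 * x1))
        (U0 * U2 * (x0 * x2)) (U1 * U2 * (x1 * x2))) =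
      x0 ^ 2 * GG (U0 ^ 2 * y0) (U0 ^ 2 * y0 - U1 ^ 2 * y1) y1 (y1 - y0) (U0 * U1 * (y0 * y1))
        (U0 * U2 * (y0 * y2)) (U1 * U2 * (y1 * y2)) := by
    intro x0 x1 x2 y0 y1 y2 f1 f2
    have e : y0 * (y0 * GG (U0 ^ 2 * x0) (U0 ^ 2 * x0 - U1 ^ 2 * x1) x1 (x1 - x0)
        (U0 * U1 * (x0 * x1)) (U0 * U2 * (x0 * x2)) (U1 * U2 * (x1 * x2))) =
        GG (U0 ^ 2 * (x0 * y0)) (U0 ^ 2 * (x0 * y0) - U1 ^ 2 * (x1 * y0)) (x1 * y0)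
        (x1 * y0 - x0 * y0) (U0 * U1 * (x0 * y0 * (x1 * y0))) (U0 * U2 * (x0 * y0 * (x2 * y0)))
        (U1 * U2 * (x1 * y0 * (x2 * y0))) := by
      simp only [GG]
      ring
    rw [e, f1, f2]
    simp only [GG]
    ring
  refine cancel hQ (cancel hQ (cancel hb0 (cancel hb0 ?_)))
  rw [← mul_assoc Q, ← sq, g1, g2 _ _ _ _ _ _ m1 m2]
  refine Ideal.mul_mem_left _ _ ?_
  obtain ⟨a, rfl⟩ : ∃ a, U1 = U0 + a := ⟨U1 - U0, by ring⟩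
  obtain ⟨b, rfl⟩ : ∃ b, U2 = U0 + b := ⟨U2 - U0, by ring⟩
  rw [add_sub_cancel_left] at l1 l2
  have e : GG (U0 ^ 2 * b0 (U0 + a) (U0 + b))
      (U0 ^ 2 * b0 (U0 + a) (U0 + b) - (U0 + a) ^ 2 * b1 U0 (U0 + b)) (b1 U0 (U0 + b))
      (b1 U0 (U0 + b) - b0 (U0 + a) (U0 + b))
      (U0 * (U0 + a) * (b0 (U0 + a) (U0 + b) * b1 U0 (U0 + b)))
      (U0 * (U0 + b) * (b0 (U0 + a) (U0 + b) * b2 U0 (U0 + a)))
      ((U0 + a) * (U0 + b) * (b1 U0 (U0 + b) * b2 U0 (U0 + a))) =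
      (18 * U0 ^ 2 * a - 36 * U0 ^ 2 * b + 6 * U0 * a * b - 12 * U0 * b ^ 2 + 5 * a * b ^ 2 -
        4 * b ^ 3) * (a * a * a) + (54 * U0 ^ 3 + 81 * U0 ^ 2 * b + 48 * U0 * b ^ 2 + 17 * b ^ 3) *
        (a * a * b) + (-54 * U0 ^ 3 - 36 * U0 ^ 2 * b - 6 * U0 * b ^ 2) * (a * b * b) +
        (-9 * U0 ^ 2 * b) * (b * b * b) := by
    simp only [GG, b0, b1, b2]
    ring
  rw [e]
  exact Ideal.add_mem _ (Ideal.add_mem _ (Ideal.add_mem _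
    (Ideal.mul_mem_left _ _ (mulm (mulm l1 l1) l1)) (Ideal.mul_mem_left _ _ (mulm (mulm l1 l1) l2)))
    (Ideal.mul_mem_left _ _ (mulm (mulm l1 l2) l2))) (Ideal.mul_mem_left _ _ (mulm (mulm l2 l2) l2))

/-- Away from the seven base points the curve does not meet the six lines. -/
theorem b_ne_zero (h : Side n D) (k : Side m E) {u0 u1 u2 : ℂ} (hF : FF D E u0 u1 u2 = 0)
    (hq0 : ¬ (u1 = 0 ∧ u2 = 0)) (hq1 : ¬ (u0 = 0 ∧ u2 = 0)) (hq2 : ¬ (u0 = 0 ∧ u1 = 0))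
    (hp : ¬ (b0 u1 u2 = 0 ∧ b1 u0 u2 = 0)) : b0 u1 u2 ≠ 0 ∧ b1 u0 u2 ≠ 0 ∧ b2 u0 u1 ≠ 0 := by
  obtain ⟨r0, r1, r2, s0, s1, s2⟩ := rel h k u0 u1 u2
  have hβ : 2 * b1 u0 u2 = b0 u1 u2 + b2 u0 u1 := by
    simp only [b0, b1, b2]
    ring
  have nA : D.ta (tA u0 u1 u2) (sA u0 u1 u2) = 0 → D.si (tA u0 u1 u2) (sA u0 u1 u2) = 0 →
      u0 ^ 2 * b0 u1 u2 = 0 ∧ u1 ^ 2 * b1 u0 u2 = 0 := fun h1 h2 => by
    obtain ⟨h3, h4⟩ := h.nz _ _ h1 h2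
    simp only [tA, sA] at h3 h4
    exact ⟨h3, by linear_combination h3 - h4⟩
  have nB : E.ta (b1 u0 u2) (sB u0 u1 u2) = 0 → E.si (b1 u0 u2) (sB u0 u1 u2) = 0 → False :=
    fun h1 h2 => by
      obtain ⟨h3, h4⟩ := k.nz _ _ h1 h2
      simp only [sB] at h4
      exact hp ⟨by linear_combination h3 - h4, h3⟩
  have z0 : b0 u1 u2 = 0 → u1 ≠ 0 := fun hb h1 => hq0 ⟨h1, by
    rw [b0, h1] at hb
    exact pow_eq_zero_iff two_ne_zero |>.1 (by linear_combination hb / 2)⟩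
  have z1 : b1 u0 u2 = 0 → u0 ≠ 0 := fun hb h1 => hq1 ⟨h1, by
    rw [b1, h1] at hb
    exact pow_eq_zero_iff two_ne_zero |>.1 (by linear_combination hb)⟩
  have z2 : b2 u0 u1 = 0 → u0 ≠ 0 := fun hb h1 => hq2 ⟨h1, by
    rw [b2, h1] at hb
    exact pow_eq_zero_iff two_ne_zero |>.1 (by linear_combination -hb)⟩
  unfold FF GG at hF
  generalize D.ta (tA u0 u1 u2) (sA u0 u1 u2) = τ at *
  generalize D.si (tA u0 u1 u2) (sA u0 u1 u2) = σ at *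
  generalize E.ta (b1 u0 u2) (sB u0 u1 u2) = τ' at *
  generalize E.si (b1 u0 u2) (sB u0 u1 u2) = σ' at *
  generalize eA D.P0 u0 u1 u2 = p0 at *
  generalize eA D.P1 u0 u1 u2 = p1 at *
  generalize eA D.P2 u0 u1 u2 = p2 at *
  generalize eB E.P0 u0 u1 u2 = c0 at *
  generalize eB E.P1 u0 u1 u2 = c1 at *
  generalize eB E.P2 u0 u1 u2 = c2 at *
  generalize b0 u1 u2 = β0 at *
  generalize b1 u0 u2 = β1 at *
  generalize b2 u0 u1 = β2 at *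
  have k01 : (u0 * u1 * (β0 * β1) * (p0 * p1) * (c1 * c0)) ^ 2 =
      τ * (τ - σ) * ((τ' - σ') * τ') := by rw [r1, s1, s0, r0]; ring
  have k02 : (u0 * u2 * (β0 * β2) * (p0 * p2) * (c1 * c2)) ^ 2 =
      τ * (τ + σ) * ((τ' - σ') * (τ' + σ')) := by rw [r2, s1, s2, r0]; ring
  have k12 : (u1 * u2 * (β1 * β2) * (p1 * p2) * (c0 * c2)) ^ 2 =
      (τ - σ) * (τ + σ) * (τ' * (τ' + σ')) := by rw [r1, r2, s2, s0]; ring
  refine ⟨fun hb => ?_, fun hb => ?_, fun hb => ?_⟩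
  · have t0 : τ = 0 := by rw [r0, hb]; ring
    have t1 : τ' = σ' := by rw [hb] at s1; linear_combination s1
    have n1 : σ ≠ 0 := fun h1 => hp ⟨hb, (mul_eq_zero.1 (nA t0 h1).2).resolve_left
      (pow_ne_zero 2 (z0 hb))⟩
    have n2 : σ' ≠ 0 := fun h1 => nB (t1.trans h1) h1
    generalize u1 * u2 * (β1 * β2) * (p1 * p2) * (c0 * c2) = g at *
    rw [hb, t0, t1] at hF
    rw [t0, t1] at k12
    have : (σ * σ') ^ 2 = 0 := by linear_combination (-(4 * g + 7 * (σ * σ')) * hF + 16 * k12) / 81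
    exact pow_ne_zero 2 (mul_ne_zero n1 n2) this
  · have t0 : τ = σ := by rw [hb] at r1; linear_combination r1
    have t1 : τ' = 0 := by rw [s0, hb]; ring
    have n1 : σ ≠ 0 := fun h1 => hp ⟨(mul_eq_zero.1 (nA (t0.trans h1) h1).1).resolve_left
      (pow_ne_zero 2 (z1 hb)), hb⟩
    have n2 : σ' ≠ 0 := fun h1 => nB t1 h1
    generalize u0 * u2 * (β0 * β2) * (p0 * p2) * (c1 * c2) = g at *
    rw [hb, t0, t1] at hF
    rw [t0, t1] at k02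
    have : (σ * σ') ^ 2 = 0 := by linear_combination (-(4 * g + 7 * (σ * σ')) * hF + 16 * k02) / 81
    exact pow_ne_zero 2 (mul_ne_zero n1 n2) this
  · have t0 : τ = -σ := by rw [hb] at r2; linear_combination r2
    have t1 : τ' = -σ' := by rw [hb] at s2; linear_combination s2
    have n1 : σ ≠ 0 := fun h1 => by
      have h3 := (mul_eq_zero.1 (nA (by rw [t0, h1, neg_zero]) h1).1).resolve_left
        (pow_ne_zero 2 (z2 hb))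
      exact hp ⟨h3, by linear_combination (hβ + h3 + hb) / 2⟩
    have n2 : σ' ≠ 0 := fun h1 => nB (by rw [t1, h1, neg_zero]) h1
    generalize u0 * u1 * (β0 * β1) * (p0 * p1) * (c1 * c0) = g at *
    rw [hb, t0, t1] at hF
    rw [t0, t1] at k01
    have : (σ * σ') ^ 2 = 0 := by
      linear_combination ((20 * g + 41 * (σ * σ')) * hF + 400 * k01) / 81
    exact pow_ne_zero 2 (mul_ne_zero n1 n2) this

end Pool.Agent.Lib.MP_81ecef_ag.K4
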