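import Mathlib
import Pool.Agent.Lib.MP_81ecef_ag.K4.Plane

/-! Pull-back of the equation to the product of two conics. -/

namespace Pool.Agent.Lib.MP_81ecef_ag.K4

section Defs
variable {R : Type} [CommRing R]

/-- The form vanishing on the four graphs. -/
def del (a1 a2 r0 r2 : R) : R := a1 ^ 2 * r2 ^ 2 + 2 * a2 ^ 2 * r0 ^ 2
/-- First bilinear form. -/
def f0 (x z y w : R) : R := x * (w + 3 * y) - z * (w - y)
/-- Second bilinear form. -/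
def f1 (x z y w : R) : R := x * w - z * (2 * y + w)
/-- Third bilinear form. -/
def f2 (x z y w : R) : R := 2 * x * w - z * (y - w)
/-- Fourth bilinear form. -/
def f3 (x z y w : R) : R := x * w - z * (w - y)
/-- The polar form. -/
def pol (A0 A1 A2 B0 B1 B2 : R) : R :=
  -2 * A0 * B1 + 12 * A0 * B0 + 6 * A0 * B2 - 3 * A1 * B1 - 2 * A1 * B0 - 3 * A1 * B2 +
    3 * A2 * B1 - 6 * A2 * B0 - 5 * A2 * B2
/-- First coordinate of the map to the plane. -/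
def uu0 (x y : R) : R := q0 x 1 * q0 y 1 * q2 y 1
/-- Second coordinate. -/
def uu1 (x y : R) : R := q1 x 1 * q1 y 1 * q2 y 1
/-- Third coordinate. -/
def uu2 (x y : R) : R := q2 x 1 * q1 y 1 * q0 y 1

theorem conic_q (x z : R) : 2 * q0 x z ^ 2 = q1 x z ^ 2 + q2 x z ^ 2 := by
  simp only [q0, q1, q2]
  ring

theorem conic_b {a0 a1 a2 r0 r1 r2 : R} (ha : 2 * a0 ^ 2 = a1 ^ 2 + a2 ^ 2)
    (hr : 2 * r0 ^ 2 = r1 ^ 2 + r2 ^ 2) :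
    b0 (a1 * r1 * r2) (a2 * r1 * r0) = r1 ^ 2 * del a1 a2 r0 r2 ∧
    b1 (a0 * r0 * r2) (a2 * r1 * r0) = r0 ^ 2 * del a1 a2 r0 r2 ∧
    b2 (a0 * r0 * r2) (a1 * r1 * r2) = r2 ^ 2 * del a1 a2 r0 r2 := by
  simp only [b0, b1, b2, del]
  refine ⟨by ring, ?_, ?_⟩
  · linear_combination (r0 ^ 2 * r2 ^ 2) * ha - (r0 ^ 2 * a2 ^ 2) * hr
  · linear_combination (2 * r0 ^ 2 * r2 ^ 2) * ha + (r2 ^ 2 * a1 ^ 2) * hr

theorem conic_t {a0 a1 a2 r0 r1 r2 : R} (ha : 2 * a0 ^ 2 = a1 ^ 2 + a2 ^ 2)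
    (hr : 2 * r0 ^ 2 = r1 ^ 2 + r2 ^ 2) :
    tA (a0 * r0 * r2) (a1 * r1 * r2) (a2 * r1 * r0) =
      (r0 * r1 * r2) ^ 2 * del a1 a2 r0 r2 * a0 ^ 2 ∧
    sA (a0 * r0 * r2) (a1 * r1 * r2) (a2 * r1 * r0) =
      (r0 * r1 * r2) ^ 2 * del a1 a2 r0 r2 * (a0 ^ 2 - a1 ^ 2) ∧
    b1 (a0 * r0 * r2) (a2 * r1 * r0) = del a1 a2 r0 r2 * r0 ^ 2 ∧
    sB (a0 * r0 * r2) (a1 * r1 * r2) (a2 * r1 * r0) = del a1 a2 r0 r2 * (r0 ^ 2 - r1 ^ 2) := by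
  obtain ⟨h0, h1, -⟩ := conic_b ha hr
  simp only [tA, sA, sB, h0, h1]
  refine ⟨by ring, by ring, by ring, by ring⟩

end Defs

variable {R : Type} [CommRing R] [Algebra ℂ R] {n m : ℕ} {D E : Dat}

theorem conic_e {a0 a1 a2 r0 r1 r2 : R} (ha : 2 * a0 ^ 2 = a1 ^ 2 + a2 ^ 2)
    (hr : 2 * r0 ^ 2 = r1 ^ 2 + r2 ^ 2) {f : MvPolynomial (Fin 2) ℂ} {n : ℕ}
    (hf : f.IsHomogeneous n) :
    eA f (a0 * r0 * r2) (a1 * r1 * r2) (a2 * r1 * r0) =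
      ((r0 * r1 * r2) ^ 2 * del a1 a2 r0 r2) ^ n * ev f (a0 ^ 2) (a0 ^ 2 - a1 ^ 2) ∧
    eB f (a0 * r0 * r2) (a1 * r1 * r2) (a2 * r1 * r0) =
      del a1 a2 r0 r2 ^ n * ev f (r0 ^ 2) (r0 ^ 2 - r1 ^ 2) := by
  obtain ⟨h0, h1, h2, h3⟩ := conic_t ha hr
  exact ⟨by rw [eA, h0, h1, ev_smul hf], by rw [eB, h3, h2, ev_smul hf]⟩

theorem FF_uu (h : Side n D) (k : Side m E) (x y : R) :
    FF D E (uu0 x y) (uu1 x y) (uu2 x y) =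
      ((q0 y 1 * q1 y 1 * q2 y 1) ^ 2 * del (q1 x 1) (q2 x 1) (q0 y 1) (q2 y 1)) ^ (2 * n + 1) *
        del (q1 x 1) (q2 x 1) (q0 y 1) (q2 y 1) ^ (2 * m + 1) * 16 *
        f0 (D.ta x 1) (D.si x 1) (E.ta y 1) (E.si y 1) *
        f2 (D.ta x 1) (D.si x 1) (E.ta y 1) (E.si y 1) *
        f3 (D.ta x 1) (D.si x 1) (E.ta y 1) (E.si y 1) *
        f1 (D.ta x 1) (D.si x 1) (E.ta y 1) (E.si y 1) := by
  have base : ∀ X Z Y W : R, GG (q0 X Z ^ 2) (q0 X Z ^ 2 - q1 X Z ^ 2) (q0 Y W ^ 2)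
      (q0 Y W ^ 2 - q1 Y W ^ 2) (q0 X Z * q1 X Z * (q1 Y W * q0 Y W))
      (q0 X Z * q2 X Z * (q1 Y W * q2 Y W)) (q1 X Z * q2 X Z * (q0 Y W * q2 Y W)) =
      16 * f0 X Z Y W * f2 X Z Y W * f3 X Z Y W * f1 X Z Y W := by
    intro X Z Y W
    simp only [GG, q0, q1, q2, f0, f1, f2, f3]
    ring
  have hb := base (D.ta x 1) (D.si x 1) (E.ta y 1) (E.si y 1)
  rw [h.d0, h.d1, h.d2, k.d0, k.d1, k.d2] at hb
  obtain ⟨r0, r1, -, s0, s1, -⟩ := rel h k (uu0 x y) (uu1 x y) (uu2 x y)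
  have ha := conic_q x 1
  have hr := conic_q y 1
  obtain ⟨c0, c1, c2⟩ := conic_b ha hr
  have σ1 : D.si (tA (uu0 x y) (uu1 x y) (uu2 x y)) (sA (uu0 x y) (uu1 x y) (uu2 x y)) =
      uu0 x y ^ 2 * b0 (uu1 x y) (uu2 x y) * eA D.P0 (uu0 x y) (uu1 x y) (uu2 x y) ^ 2 -
      uu1 x y ^ 2 * b1 (uu0 x y) (uu2 x y) * eA D.P1 (uu0 x y) (uu1 x y) (uu2 x y) ^ 2 := by
    linear_combination r0 - r1
  have σ2 : E.si (b1 (uu0 x y) (uu2 x y)) (sB (uu0 x y) (uu1 x y) (uu2 x y)) =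
      b1 (uu0 x y) (uu2 x y) * eB E.P0 (uu0 x y) (uu1 x y) (uu2 x y) ^ 2 -
      b0 (uu1 x y) (uu2 x y) * eB E.P1 (uu0 x y) (uu1 x y) (uu2 x y) ^ 2 := by
    linear_combination s0 - s1
  rw [FF, σ1, σ2, r0, s0]
  simp only [uu0, uu1, uu2, c0, c1, c2, (conic_e ha hr h.h0).1, (conic_e ha hr h.h1).1,
    (conic_e ha hr h.h2).1, (conic_e ha hr k.h0).2, (conic_e ha hr k.h1).2, (conic_e ha hr k.h2).2]
  rw [pow_succ _ (2 * n), pow_succ _ (2 * m), pow_mul' _ 2 n, pow_mul' _ 2 m]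
  generalize del (q1 x 1) (q2 x 1) (q0 y 1) (q2 y 1) = Δ at *
  generalize ((q0 y 1 * q1 y 1 * q2 y 1) ^ 2 * Δ) ^ n = K1 at *
  generalize Δ ^ m = K2 at *
  simp only [GG] at hb ⊢
  linear_combination (K1 ^ 2 * ((q0 y 1 * q1 y 1 * q2 y 1) ^ 2 * Δ) * (K2 ^ 2 * Δ)) * hb

theorem lift_conic {L : Type} [Field L] [CharZero L] {a0 a1 a2 : L}
    (ha : 2 * a0 ^ 2 = a1 ^ 2 + a2 ^ 2) (h : 2 * a0 - a1 - a2 ≠ 0) :
    ∃ x c : L, c ≠ 0 ∧ q0 x 1 = c * a0 ∧ q1 x 1 = c * a1 ∧ q2 x 1 = c * a2 := by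
  refine ⟨(a2 - a1) / (2 * a0 - a1 - a2), 4 / (2 * a0 - a1 - a2), div_ne_zero (by norm_num) h,
    ?_, ?_, ?_⟩ <;> simp only [q0, q1, q2] <;> field_simp
  · linear_combination (-2) * ha
  · linear_combination (-2) * ha
  · linear_combination (-2) * ha

theorem Side.scale (h : Side n D) {x x' c e0 e1 e2 : R} (h0 : q0 x' 1 = c * (e0 * q0 x 1))
    (h1 : q1 x' 1 = c * (e1 * q1 x 1)) (h2 : q2 x' 1 = c * (e2 * q2 x 1)) (s0 : e0 ^ 2 = 1)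
    (s1 : e1 ^ 2 = 1) (s2 : e2 ^ 2 = 1) :
    e0 * q0 (D.ta x' 1) (D.si x' 1) = c * (c ^ 2) ^ n * q0 (D.ta x 1) (D.si x 1) ∧
    e1 * q1 (D.ta x' 1) (D.si x' 1) = c * (c ^ 2) ^ n * q1 (D.ta x 1) (D.si x 1) ∧
    e2 * q2 (D.ta x' 1) (D.si x' 1) = c * (c ^ 2) ^ n * q2 (D.ta x 1) (D.si x 1) := by
  have t0 : q0 x' 1 ^ 2 = c ^ 2 * q0 x 1 ^ 2 := by
    rw [h0]
    linear_combination (c ^ 2 * q0 x 1 ^ 2) * s0
  have t1 : q0 x' 1 ^ 2 - q1 x' 1 ^ 2 = c ^ 2 * (q0 x 1 ^ 2 - q1 x 1 ^ 2) := by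
    rw [t0, h1]
    linear_combination (-c ^ 2 * q1 x 1 ^ 2) * s1
  rw [h.d0, h.d1, h.d2, h.d0, h.d1, h.d2, t1, t0, ev_smul h.h0, ev_smul h.h1, ev_smul h.h2, h0, h1,
    h2]
  generalize (c ^ 2) ^ n = K
  refine ⟨?_, ?_, ?_⟩
  · linear_combination (c * K * q0 x 1 * ev D.P0 (q0 x 1 ^ 2) (q0 x 1 ^ 2 - q1 x 1 ^ 2)) * s0
  · linear_combination (c * K * q1 x 1 * ev D.P1 (q0 x 1 ^ 2) (q0 x 1 ^ 2 - q1 x 1 ^ 2)) * s1
  · linear_combination (c * K * q2 x 1 * ev D.P2 (q0 x 1 ^ 2) (q0 x 1 ^ 2 - q1 x 1 ^ 2)) * s2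

theorem transfer_pt (h : Side n D) (k : Side m E) {L : Type} [Field L] [CharZero L] [Algebra ℂ L]
    {x y e1 e2 : L} (s1 : e1 ^ 2 = 1) (s2 : e2 ^ 2 = 1)
    (hx : 2 * (1 * q0 x 1) - e1 * q1 x 1 - e2 * q2 x 1 ≠ 0)
    (hy : 2 * (e1 * q0 y 1) - 1 * q1 y 1 - e2 * q2 y 1 ≠ 0)
    (h1 : f1 (D.ta x 1) (D.si x 1) (E.ta y 1) (E.si y 1) = 0) :
    ∃ x' y' κ : L, κ ≠ 0 ∧ uu0 x' y' = κ * uu0 x y ∧ uu1 x' y' = κ * uu1 x y ∧
      uu2 x' y' = κ * uu2 x y ∧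
      pol (q0 (D.ta x' 1) (D.si x' 1)) (e1 * q1 (D.ta x' 1) (D.si x' 1))
        (e2 * q2 (D.ta x' 1) (D.si x' 1)) (e1 * q0 (E.ta y' 1) (E.si y' 1))
        (q1 (E.ta y' 1) (E.si y' 1)) (e2 * q2 (E.ta y' 1) (E.si y' 1)) = 0 := by
  obtain ⟨x', c, hc, a0, a1, a2⟩ := lift_conic (by
    linear_combination conic_q x 1 - q1 x 1 ^ 2 * s1 - q2 x 1 ^ 2 * s2) hx
  obtain ⟨y', c', hc', r0, r1, r2⟩ := lift_conic (by
    linear_combination conic_q y 1 + 2 * q0 y 1 ^ 2 * s1 - q2 y 1 ^ 2 * s2) hy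
  obtain ⟨A0, A1, A2⟩ := h.scale a0 a1 a2 (one_pow 2) s1 s2
  obtain ⟨B0, B1, B2⟩ := k.scale r0 r1 r2 s1 (one_pow 2) s2
  have n1 : e1 ≠ 0 := fun h0 => by simp [h0] at s1
  have n2 : e2 ≠ 0 := fun h0 => by simp [h0] at s2
  refine ⟨x', y', c * c' ^ 2 * (e1 * e2),
    mul_ne_zero (mul_ne_zero hc (pow_ne_zero 2 hc')) (mul_ne_zero n1 n2), ?_, ?_, ?_, ?_⟩
  · simp only [uu0, a0, r0, r2]
    ring
  · simp only [uu1, a1, r1, r2]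
    ring
  · simp only [uu2, a2, r0, r1]
    ring
  · rw [one_mul] at A0 B1
    rw [A0, A1, A2, B0, B1, B2]
    generalize c * (c ^ 2) ^ n = K
    generalize c' * (c' ^ 2) ^ m = K'
    simp only [pol, q0, q1, q2, f1] at h1 ⊢
    linear_combination (8 * K * K' * (D.ta x 1 * E.si y 1 -
      D.si x 1 * (2 * E.ta y 1 + E.si y 1))) * h1

omit [Algebra ℂ R] in
theorem pol_two (X Z Y W : R) : pol (q0 X Z) (1 * q1 X Z) (-1 * q2 X Z) (1 * q0 Y W) (q1 Y W)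
    (-1 * q2 Y W) = 8 * f2 X Z Y W ^ 2 := by
  simp only [pol, q0, q1, q2, f2]
  ring

omit [Algebra ℂ R] in
theorem pol_three (X Z Y W : R) : pol (q0 X Z) (-1 * q1 X Z) (1 * q2 X Z) (-1 * q0 Y W) (q1 Y W)
    (1 * q2 Y W) = -16 * f3 X Z Y W ^ 2 := by
  simp only [pol, q0, q1, q2, f3]
  ring

omit [Algebra ℂ R] in
theorem pol_zero (X Z Y W : R) : pol (q0 X Z) (-1 * q1 X Z) (-1 * q2 X Z) (-1 * q0 Y W) (q1 Y W)
    (-1 * q2 Y W) = -4 * f0 X Z Y W ^ 2 := by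
  simp only [pol, q0, q1, q2, f0]
  ring

/-- Every point off the six lines comes from the product of the two conics. -/
theorem lift_plane {u0 u1 u2 : ℂ} (hq0 : ¬ (u1 = 0 ∧ u2 = 0))
    (h0 : b0 u1 u2 ≠ 0) (h1 : b1 u0 u2 ≠ 0) (h2 : b2 u0 u1 ≠ 0) :
    ∃ x y κ : ℂ, κ ≠ 0 ∧ uu0 x y = κ * u0 ∧ uu1 x y = κ * u1 ∧ uu2 x y = κ * u2 := by
  have key : ∀ r0 r1 r2 : ℂ, r0 ^ 2 = b1 u0 u2 → r1 ^ 2 = b0 u1 u2 → r2 ^ 2 = b2 u0 u1 →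
      2 * (u0 * r1) - u1 * r0 - u2 * r2 ≠ 0 → 2 * r0 - r1 - r2 ≠ 0 →
      ∃ x y κ : ℂ, κ ≠ 0 ∧ uu0 x y = κ * u0 ∧ uu1 x y = κ * u1 ∧ uu2 x y = κ * u2 := by
    intro r0 r1 r2 e0 e1 e2 ha hr
    obtain ⟨x, c, hc, a0, a1, a2⟩ := lift_conic (by
      rw [mul_pow, mul_pow, mul_pow, e0, e1, e2]
      simp only [b0, b1, b2]
      ring) ha
    obtain ⟨y, c', hc', s0, s1, s2⟩ := lift_conic (by
      rw [e0, e1, e2]
      simp only [b0, b1, b2]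
      ring) hr
    have n0 : r0 ≠ 0 := fun h => h1 (by rw [← e0, h]; ring)
    have n1 : r1 ≠ 0 := fun h => h0 (by rw [← e1, h]; ring)
    have n2 : r2 ≠ 0 := fun h => h2 (by rw [← e2, h]; ring)
    refine ⟨x, y, c * c' ^ 2 * (r0 * r1 * r2), mul_ne_zero (mul_ne_zero hc (pow_ne_zero 2 hc'))
      (mul_ne_zero (mul_ne_zero n0 n1) n2), ?_, ?_, ?_⟩
    · simp only [uu0, a0, s0, s2]
      ring
    · simp only [uu1, a1, s1, s2]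
      ring
    · simp only [uu2, a2, s0, s1]
      ring
  obtain ⟨r0, e0⟩ := IsAlgClosed.exists_pow_nat_eq (b1 u0 u2) (n := 2) (by norm_num)
  obtain ⟨r1, e1⟩ := IsAlgClosed.exists_pow_nat_eq (b0 u1 u2) (n := 2) (by norm_num)
  obtain ⟨r2, e2⟩ := IsAlgClosed.exists_pow_nat_eq (b2 u0 u1) (n := 2) (by norm_num)
  have n0 : r0 ≠ 0 := fun h => h1 (by rw [← e0, h]; ring)
  have n1 : r1 ≠ 0 := fun h => h0 (by rw [← e1, h]; ring)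
  have n2 : r2 ≠ 0 := fun h => h2 (by rw [← e2, h]; ring)
  have cr : 2 * r0 ^ 2 = r1 ^ 2 + r2 ^ 2 := by
    rw [e0, e1, e2]
    simp only [b0, b1, b2]
    ring
  have ca : 2 * (u0 * r1) ^ 2 = (u1 * r0) ^ 2 + (u2 * r2) ^ 2 := by
    rw [mul_pow, mul_pow, mul_pow, e0, e1, e2]
    simp only [b0, b1, b2]
    ring
  have bad : ∀ a0 a1 a2 : ℂ, 2 * a0 ^ 2 = a1 ^ 2 + a2 ^ 2 → 2 * a0 - a1 - a2 = 0 →
      a0 = a1 ∧ a1 = a2 := by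
    intro a0 a1 a2 hc hl
    have : a1 - a2 = 0 := pow_eq_zero_iff two_ne_zero |>.1 (by
      linear_combination -2 * hc + (2 * a0 + a1 + a2) * hl)
    exact ⟨by linear_combination (hl - this) / 2, by linear_combination this⟩
  by_contra hne
  have c1 : 2 * (u0 * r1) - u1 * r0 - u2 * r2 = 0 ∨ 2 * r0 - r1 - r2 = 0 := by
    by_contra hh
    push Not at hh
    exact hne (key r0 r1 r2 e0 e1 e2 hh.1 hh.2)
  have c2 : 2 * (u0 * r1) - u1 * r0 - u2 * (-r2) = 0 ∨ 2 * r0 - r1 - (-r2) = 0 := by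
    by_contra hh
    push Not at hh
    exact hne (key r0 r1 (-r2) e0 e1 (by rw [neg_sq, e2]) hh.1 hh.2)
  have c3 : 2 * (u0 * (-r1)) - u1 * r0 - u2 * r2 = 0 ∨ 2 * r0 - (-r1) - r2 = 0 := by
    by_contra hh
    push Not at hh
    exact hne (key r0 (-r1) r2 e0 (by rw [neg_sq, e1]) e2 hh.1 hh.2)
  have d1 := c1.imp (bad _ _ _ ca) (bad _ _ _ cr)
  have d2 := c2.imp (bad _ _ _ (by linear_combination ca)) (bad _ _ _ (by linear_combination cr))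
  have d3 := c3.imp (bad _ _ _ (by linear_combination ca)) (bad _ _ _ (by linear_combination cr))
  have zero : u1 * r0 = 0 → u2 * r2 = 0 → False := fun a b =>
    hq0 ⟨(mul_eq_zero.1 a).resolve_right n0, (mul_eq_zero.1 b).resolve_right n2⟩
  rcases d1 with d1 | d1 <;> rcases d2 with d2 | d2 <;> rcases d3 with d3 | d3
  · exact zero (by linear_combination (d1.2 + d2.2) / 2) (by linear_combination (d2.2 - d1.2) / 2)
  · exact zero (by linear_combination (d1.2 + d2.2) / 2) (by linear_combination (d2.2 - d1.2) / 2)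
  · exact zero (by linear_combination -(d1.1 + d3.1) / 2)
      (by linear_combination -(d1.1 + d3.1) / 2 - d1.2)
  · exact n0 (by linear_combination (d2.1 + d3.1) / 2)
  · exact zero (by linear_combination -(d2.1 + d3.1) / 2)
      (by linear_combination -(d2.1 + d3.1) / 2 - d3.2)
  · exact n0 (by linear_combination (d1.1 + d3.1) / 2)
  · exact n1 (by linear_combination (d1.2 + d2.2) / 2)
  · exact n1 (by linear_combination (d1.2 + d2.2) / 2)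

end Pool.Agent.Lib.MP_81ecef_ag.K4
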