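import Mathlib
import Pool.Agent.Lib.MP_81ecef_ag.K4.Side

/-! One-variable consequences of the identities of `Side`: degrees and distinct roots. -/

namespace Pool.Agent.Lib.MP_81ecef_ag.K4

open Polynomial Pool.Agent.Lib.MP_81ecef_ag.L3

theorem natDegree_ev {f : MvPolynomial (Fin 2) ℂ} {n : ℕ} (hf : f.IsHomogeneous n) :
    (ev f (X : ℂ[X]) 1).natDegree ≤ n := by
  rw [ev_sum]
  refine natDegree_sum_le_of_forall_le _ _ fun d hd => ?_
  have := deg_eq hf hd
  rw [one_pow, mul_one, algebraMap_eq]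
  exact (natDegree_C_mul_X_pow_le _ _).trans (by omega)

theorem coeff_ev {f : MvPolynomial (Fin 2) ℂ} {n : ℕ} (hf : f.IsHomogeneous n) :
    (ev f (X : ℂ[X]) 1).coeff n = ev f (1 : ℂ) 0 := by
  rw [ev_sum, ev_sum, finsetSum_coeff]
  refine Finset.sum_congr rfl fun d hd => ?_
  have := deg_eq hf hd
  rw [one_pow, mul_one, algebraMap_eq, coeff_C_mul, coeff_X_pow, one_pow, one_mul]
  by_cases h : n = d 0
  · have h1 : d 1 = 0 := by omega
    simp [h1, ← h]
  · rw [if_neg h, zero_pow (by omega)]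
    simp

theorem eval_ev (f : MvPolynomial (Fin 2) ℂ) (x : ℂ) :
    (ev f (X : ℂ[X]) 1).eval x = ev f x 1 := by
  rw [← coe_aeval_eq_eval, map_ev, aeval_X, map_one]

theorem eval_ta (D : Dat) (x : ℂ) : (D.ta (X : ℂ[X]) 1).eval x = D.ta x 1 := by
  rw [← coe_aeval_eq_eval, map_ta, aeval_X, map_one]

theorem eval_si (D : Dat) (x : ℂ) : (D.si (X : ℂ[X]) 1).eval x = D.si x 1 := by
  rw [← coe_aeval_eq_eval, map_si, aeval_X, map_one]

theorem sq_le {n : ℕ} {P : ℂ[X]} (h : P.natDegree ≤ n) : (P ^ 2).natDegree ≤ 2 * n :=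
  natDegree_pow_le.trans (by omega)

variable {n : ℕ} {D : Dat}

theorem Side.coeff_ta (h : Side n D) : (D.ta (X : ℂ[X]) 1).coeff (2 * n + 1) = 1 := by
  rw [Dat.ta, coeff_X_mul, coeff_pow_of_natDegree_le (natDegree_ev h.h0), coeff_ev h.h0, h.one,
    one_pow]

theorem Side.le_si (h : Side n D) : (D.si (X : ℂ[X]) 1).natDegree ≤ 2 * n := by
  rw [Dat.si, one_mul]
  exact sq_le (natDegree_ev h.hT)

theorem Side.coeff_si (h : Side n D) : (D.si (X : ℂ[X]) 1).coeff (2 * n + 1) = 0 :=
  coeff_eq_zero_of_natDegree_lt (by have := h.le_si; omega)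

theorem Side.deg (h : Side n D) : Deg (2 * n + 1) (D.ta X 1) (D.si X 1) := by
  refine ⟨by omega, cop_of_roots fun x h1 h2 => ?_, ?_, h.le_si.trans (by omega),
    Or.inl (by rw [h.coeff_ta]; exact one_ne_zero)⟩
  · rw [eval_ta] at h1
    rw [eval_si] at h2
    exact one_ne_zero (h.nz _ _ h1 h2).2
  · have h1 := sq_le (natDegree_ev h.h0)
    have h2 : (X : ℂ[X]).natDegree ≤ 1 := natDegree_X_le
    exact natDegree_mul_le.trans (by omega)

theorem _root_.Pool.Agent.Lib.MP_81ecef_ag.L3.Deg.comb {N : ℕ} {A B : ℂ[X]} (h : Deg N A B)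
    {a b c d : ℂ} (hd : a * d - b * c ≠ 0) : Deg N (C a * A + C b * B) (C c * A + C d * B) := by
  have key : ∀ x y : ℂ, a * x + b * y = 0 → c * x + d * y = 0 → x = 0 ∧ y = 0 := by
    intro x y h1 h2
    exact ⟨(mul_eq_zero.1 (by linear_combination d * h1 - b * h2)).resolve_left hd,
      (mul_eq_zero.1 (by linear_combination a * h2 - c * h1)).resolve_left hd⟩
  refine ⟨h.pos, cop_of_roots fun x h1 h2 => ?_, lin_le h _ _, lin_le h _ _, ?_⟩
  · simp only [eval_mul, eval_add, eval_C] at h1 h2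
    exact roots_of_cop h.cop (key _ _ h1 h2).1 (key _ _ h1 h2).2
  · by_contra hc
    push Not at hc
    obtain ⟨h1, h2⟩ := hc
    rw [coeff_add, coeff_C_mul, coeff_C_mul] at h1 h2
    rcases h.top with h3 | h3
    · exact h3 (key _ _ h1 h2).1
    · exact h3 (key _ _ h1 h2).2

theorem Side.roots (h : Side n D) : ∃ s : Finset ℂ, s.card = n ∧ ∀ x ∈ s, ev D.T x 1 = 0 := by
  classical
  have hdeg := h.deg
  have cA := h.coeff_ta
  have cB := h.coeff_si
  have e1 := h.i1 (X : ℂ[X]) 1
  have e2 := h.i2 (X : ℂ[X]) 1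
  have l0 := natDegree_ev h.h0
  have l1 := natDegree_ev h.h1
  have l2 := natDegree_ev h.h2
  have lT := natDegree_ev h.hT
  have hev := eval_ev D.T
  have eA : D.ta (X : ℂ[X]) 1 = X * ev D.P0 X 1 ^ 2 := rfl
  have eB : D.si (X : ℂ[X]) 1 = ev D.T X 1 ^ 2 := one_mul _
  generalize D.ta (X : ℂ[X]) 1 = A at *
  generalize D.si (X : ℂ[X]) 1 = B at *
  generalize ev D.P0 (X : ℂ[X]) 1 = p0 at *
  generalize ev D.P1 (X : ℂ[X]) 1 = p1 at *
  generalize ev D.P2 (X : ℂ[X]) 1 = p2 at *
  generalize ev D.T (X : ℂ[X]) 1 = T at *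
  have hdA : A.natDegree = 2 * n + 1 :=
    natDegree_eq_of_le_of_coeff_ne_zero hdeg.lA (by rw [cA]; exact one_ne_zero)
  have big : ∀ (r p Q : ℂ[X]), Q = r * p ^ 2 → r.natDegree ≤ 1 → Q.coeff (2 * n + 1) = 1 →
      n ≤ p.natDegree ∧ p ≠ 0 := by
    intro r p Q hQ hr hc
    have h1 : 2 * n + 1 ≤ Q.natDegree := le_natDegree_of_ne_zero (by rw [hc]; exact one_ne_zero)
    have h2 : Q.natDegree ≤ r.natDegree + (p ^ 2).natDegree := hQ ▸ natDegree_mul_le
    have h3 := sq_le (le_refl p.natDegree)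
    refine ⟨by omega, ?_⟩
    rintro rfl
    simp [hQ] at hc
  obtain ⟨g0, z0⟩ := big _ _ _ eA natDegree_X_le cA
  obtain ⟨g1, z1⟩ := big _ _ _ e1 (by compute_degree) (by rw [coeff_sub, cA, cB, sub_zero])
  obtain ⟨g2, z2⟩ := big _ _ _ e2 (by compute_degree) (by rw [coeff_add, cA, cB, add_zero])
  have nz : ∀ x : ℂ, A.eval x = 0 → B.eval x = 0 → False := fun x => roots_of_cop hdeg.cop
  have v0 : ∀ x : ℂ, p0.eval x = 0 → A.eval x = 0 := fun x hx => by simp [eA, hx]
  have v1 : ∀ x : ℂ, p1.eval x = 0 → A.eval x - B.eval x = 0 := fun x hx => by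
    rw [← eval_sub, e1]; simp [hx]
  have v2 : ∀ x : ℂ, p2.eval x = 0 → A.eval x + B.eval x = 0 := fun x hx => by
    rw [← eval_add, e2]; simp [hx]
  have c01 : IsCoprime p0 p1 := cop_of_roots fun x h1 h2 =>
    nz x (v0 x h1) (by linear_combination v0 x h1 - v1 x h2)
  have c02 : IsCoprime p0 p2 := cop_of_roots fun x h1 h2 =>
    nz x (v0 x h1) (by linear_combination v2 x h2 - v0 x h1)
  have c12 : IsCoprime p1 p2 := cop_of_roots fun x h1 h2 =>
    nz x (by linear_combination (v1 x h1 + v2 x h2) / 2)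
      (by linear_combination (v2 x h2 - v1 x h1) / 2)
  have cT : IsCoprime A T := cop_of_roots fun x h1 h2 => nz x h1 (by simp [eB, h2])
  set W := derivative A * T - 2 * A * derivative T with hW
  have w0 : p0 ∣ W := ⟨p0 * T + 2 * X * derivative p0 * T - 2 * X * p0 * derivative T, by
    rw [hW, eA]
    simp only [derivative_mul, derivative_X, derivative_sq, map_ofNat]
    ring⟩
  have w1 : p1 ∣ W := ⟨p1 * T + 2 * (X - 1) * derivative p1 * T -
      2 * (X - 1) * p1 * derivative T, by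
    have : A = T ^ 2 + (X - 1) * p1 ^ 2 := by linear_combination e1 + eB
    rw [hW, this]
    simp only [derivative_mul, derivative_X, derivative_sq, map_ofNat, derivative_add,
      derivative_sub, derivative_one]
    ring⟩
  have w2 : p2 ∣ W := ⟨p2 * T + 2 * (X + 1) * derivative p2 * T -
      2 * (X + 1) * p2 * derivative T, by
    have : A = (X + 1) * p2 ^ 2 - T ^ 2 := by linear_combination e2 - eB
    rw [hW, this]
    simp only [derivative_mul, derivative_X, derivative_sq, map_ofNat, derivative_add,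
      derivative_sub, derivative_one]
    ring⟩
  have hA' : (derivative A).natDegree ≤ 2 * n := (natDegree_derivative_le A).trans (by omega)
  have hW0 : W ≠ 0 := by
    intro h0
    have h1 : A ∣ derivative A * T := ⟨2 * derivative T, by linear_combination h0⟩
    have h2 := cT.dvd_of_dvd_mul_right h1
    have h3 : derivative A ≠ 0 := fun h4 => by
      have := derivative_eq_zero.1 h4
      omega
    have := natDegree_le_of_dvd h2 h3
    omega
  have hWle : W.natDegree ≤ 2 * n + T.natDegree := by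
    refine (natDegree_sub_le _ _).trans (max_le (natDegree_mul_le.trans (by omega)) ?_)
    by_cases hT0 : T.natDegree = 0
    · rw [derivative_eq_zero.2 hT0]
      simp
    · have h1 := natDegree_derivative_lt hT0
      have h2 : (2 * A).natDegree ≤ 2 * n + 1 := by
        rw [two_mul]
        exact (natDegree_add_le _ _).trans (by omega)
      exact natDegree_mul_le.trans (by omega)
  obtain ⟨k, hk⟩ : p0 * p1 * p2 ∣ W := (c02.mul_left c12).mul_dvd (c01.mul_dvd w0 w1) w2
  have hk0 : k ≠ 0 := fun h0 => hW0 (by rw [hk, h0, mul_zero])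
  have hWd : W.natDegree = p0.natDegree + p1.natDegree + p2.natDegree + k.natDegree := by
    rw [hk, natDegree_mul (mul_ne_zero (mul_ne_zero z0 z1) z2) hk0,
      natDegree_mul (mul_ne_zero z0 z1) z2, natDegree_mul z0 z1]
  have hTn : T.natDegree = n := by omega
  obtain ⟨κ, rfl⟩ : ∃ κ, k = C κ := ⟨_, eq_C_of_natDegree_eq_zero (by omega)⟩
  have hκ : κ ≠ 0 := fun h0 => hk0 (by rw [h0, map_zero])
  have hsep : T.Separable := cop_of_roots fun x h1 h2 => by
    have hB : B.eval x = 0 := by simp [eB, h1]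
    have h3 : W.eval x = 0 := by simp [hW, h1, h2]
    rw [hk] at h3
    simp only [eval_mul, eval_C, mul_eq_zero, hκ, or_false] at h3
    rcases h3 with (h3 | h3) | h3
    · exact nz x (v0 x h3) hB
    · exact nz x (by linear_combination v1 x h3 + hB) hB
    · exact nz x (by linear_combination v2 x h3 - hB) hB
  refine ⟨T.roots.toFinset, ?_, fun x hx => ?_⟩
  · rw [Multiset.toFinset_card_of_nodup (nodup_roots hsep),
      ← (IsAlgClosed.splits T).natDegree_eq_card_roots, hTn]
  · rw [← hev]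
    exact isRoot_of_mem_roots (Multiset.mem_toFinset.1 hx)

end Pool.Agent.Lib.MP_81ecef_ag.K4
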