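import Mathlib
import Pool.Agent.Lib.MP_81ecef_ag.L3.Form
import Pool.Agent.Lib.MP_81ecef_ag.K4.Uni
import Pool.Agent.Lib.MP_81ecef_ag.K4.Conic

/-! Irreducibility of the plane curve. -/

namespace Pool.Agent.Lib.MP_81ecef_ag.K4

open Polynomial Pool.Agent.Lib.MP_81ecef_ag.L3

theorem aeval_smul {L : Type} [CommRing L] [Algebra ℂ L] {H : MvPolynomial (Fin 3) ℂ} {d : ℕ}
    (hH : H.IsHomogeneous d) (κ a b c : L) :
    MvPolynomial.aeval ![κ * a, κ * b, κ * c] H = κ ^ d * MvPolynomial.aeval ![a, b, c] H := by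
  rw [MvPolynomial.aeval_def, MvPolynomial.aeval_def, MvPolynomial.eval₂_eq',
    MvPolynomial.eval₂_eq', Finset.mul_sum]
  refine Finset.sum_congr rfl fun e he => ?_
  have : e 0 + e 1 + e 2 = d := by
    have := hH (MvPolynomial.mem_support_iff.1 he)
    simpa [Finsupp.weight_apply, Finsupp.sum_fintype, Fin.sum_univ_three] using this
  rw [← this]
  simp only [Fin.prod_univ_three, Matrix.cons_val_zero, Matrix.cons_val_one, Matrix.cons_val]
  ring

/-- The pull-back map. -/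
noncomputable def th : MvPolynomial (Fin 3) ℂ →ₐ[ℂ] ℂ[X][X] :=
  MvPolynomial.aeval ![uu0 (C X) X, uu1 (C X) X, uu2 (C X) X]

theorem map_th {L : Type} [CommRing L] [Algebra ℂ L] (φ : ℂ[X][X] →ₐ[ℂ] L)
    (H : MvPolynomial (Fin 3) ℂ) : φ (th H) = MvPolynomial.aeval
      ![uu0 (φ (C X)) (φ X), uu1 (φ (C X)) (φ X), uu2 (φ (C X)) (φ X)] H := by
  rw [th, ← AlgHom.comp_apply, MvPolynomial.comp_aeval]
  congr 2
  funext i
  fin_cases i <;> simp [uu0, uu1, uu2, q0, q1, q2, map_ofNat]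

theorem ta_x (D : Dat) : D.ta (C X : ℂ[X][X]) 1 = C (D.ta X 1) := by
  have := map_ta (CAlgHom : ℂ[X] →ₐ[ℂ] ℂ[X][X]) D X 1
  simpa using this.symm

theorem si_x (D : Dat) : D.si (C X : ℂ[X][X]) 1 = C (D.si X 1) := by
  have := map_si (CAlgHom : ℂ[X] →ₐ[ℂ] ℂ[X][X]) D X 1
  simpa using this.symm

theorem aeval_X_map (p : ℂ[X]) : aeval (X : ℂ[X][X]) p = p.map C := by
  rw [← algebraMap_eq, ← aeval_map_algebraMap ℂ[X], aeval_X_left_apply]

theorem ta_y (D : Dat) : D.ta (X : ℂ[X][X]) 1 = (D.ta (X : ℂ[X]) 1).map C := by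
  rw [← aeval_X_map, map_ta, aeval_X, map_one]

theorem si_y (D : Dat) : D.si (X : ℂ[X][X]) 1 = (D.si (X : ℂ[X]) 1).map C := by
  rw [← aeval_X_map, map_si, aeval_X, map_one]

section Primes
variable {N M : ℕ} {A B Y W : ℂ[X]}

theorem prime_sep (h : Deg N A B) (k : Deg M Y W) (hc : Nat.Coprime M N) {a b c d : ℂ}
    (hd : a * d - b * c ≠ 0) {Φ : ℂ[X][X]}
    (e : Φ = C A * (C (C c) * Y.map C + C (C d) * W.map C) -
      C B * (C (C a) * Y.map C + C (C b) * W.map C)) : Prime Φ := by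
  have := (irreducible_sep h (k.comb hd) hc).prime
  simpa only [sep, Polynomial.map_add, Polynomial.map_mul, map_C, ← e] using this

theorem prime_f0 (h : Deg N A B) (k : Deg M Y W) (hc : Nat.Coprime M N) :
    Prime (f0 (C A) (C B) (Y.map C) (W.map C)) :=
  prime_sep h k hc (a := -1) (b := 1) (c := 3) (d := 1) (by norm_num) (by
    simp only [f0, map_neg, map_one, map_ofNat]; ring)

theorem prime_f1 (h : Deg N A B) (k : Deg M Y W) (hc : Nat.Coprime M N) :
    Prime (f1 (C A) (C B) (Y.map C) (W.map C)) :=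
  prime_sep h k hc (a := 2) (b := 1) (c := 0) (d := 1) (by norm_num) (by
    simp only [f1, map_zero, map_one, map_ofNat]; ring)

theorem prime_f2 (h : Deg N A B) (k : Deg M Y W) (hc : Nat.Coprime M N) :
    Prime (f2 (C A) (C B) (Y.map C) (W.map C)) :=
  prime_sep h k hc (a := 1) (b := -1) (c := 0) (d := 2) (by norm_num) (by
    simp only [f2, map_neg, map_zero, map_one, map_ofNat]; ring)

theorem prime_f3 (h : Deg N A B) (k : Deg M Y W) (hc : Nat.Coprime M N) :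
    Prime (f3 (C A) (C B) (Y.map C) (W.map C)) :=
  prime_sep h k hc (a := -1) (b := 1) (c := 0) (d := 1) (by norm_num) (by
    simp only [f3, map_neg, map_zero, map_one]; ring)

end Primes

theorem not_dvd_small {Φ p : ℂ[X][X]} (h5 : 5 ≤ Φ.natDegree) (hp : p ≠ 0) (hd : p.natDegree ≤ 4) :
    ¬ Φ ∣ p := fun h => by
  have := natDegree_le_of_dvd h hp
  omega

theorem not_dvd_map {Φ : ℂ[X][X]} (hΦ : Prime Φ) (h5 : 5 ≤ Φ.natDegree) :
    ∀ (d : ℕ) (p : ℂ[X]), p.natDegree = d → p ≠ 0 → ¬ Φ ∣ p.map C := by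
  intro d
  induction d with
  | zero =>
    intro p hd hp
    exact not_dvd_small h5 ((Polynomial.map_ne_zero_iff C_injective).2 hp)
      (natDegree_map_le.trans (by omega))
  | succ d ih =>
    intro p hd hp hdvd
    obtain ⟨c, hc⟩ := IsAlgClosed.exists_root p (natDegree_pos_iff_degree_pos.1 (by omega)).ne'
    obtain ⟨q, rfl⟩ := dvd_iff_isRoot.2 hc
    have hq : q ≠ 0 := right_ne_zero_of_mul hp
    rw [natDegree_mul (X_sub_C_ne_zero c) hq, natDegree_X_sub_C] at hd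
    rw [Polynomial.map_mul] at hdvd
    rcases hΦ.dvd_or_dvd hdvd with h | h
    · exact not_dvd_small h5 ((Polynomial.map_ne_zero_iff C_injective).2 (X_sub_C_ne_zero c))
        (natDegree_map_le.trans (by rw [natDegree_X_sub_C]; omega)) h
    · exact ih q (by omega) hq h

theorem dvd_of_prime {S : Type} [CommRing S] [IsDomain S] {p h a : S} (hp : Prime p)
    (hn : ¬ p ∣ h) (hd : h ∣ a * p) : h ∣ a := by
  obtain ⟨k, hk⟩ := hd
  obtain ⟨k', rfl⟩ := (hp.dvd_or_dvd (⟨a, by rw [← hk, mul_comm]⟩ : p ∣ h * k)).resolve_left hn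
  exact ⟨k', mul_right_cancel₀ hp.ne_zero (by rw [hk]; ring)⟩

theorem exists_generic {Φ : ℂ[X][X]} (hΦ : Prime Φ) : ∃ (L : Type) (_ : Field L) (_ : Algebra ℂ L)
    (π : ℂ[X][X] →ₐ[ℂ] L), ∀ f, π f = 0 ↔ Φ ∣ f := by
  have hI : (Ideal.span {Φ}).IsPrime := (Ideal.span_singleton_prime hΦ.ne_zero).2 hΦ
  refine ⟨FractionRing (ℂ[X][X] ⧸ Ideal.span {Φ}), inferInstance, inferInstance,
    (IsScalarTower.toAlgHom ℂ (ℂ[X][X] ⧸ Ideal.span {Φ}) _).comp
      (Ideal.Quotient.mkₐ ℂ (Ideal.span {Φ})), fun f => ?_⟩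
  rw [AlgHom.comp_apply, IsScalarTower.toAlgHom_apply,
    map_eq_zero_iff _ (IsFractionRing.injective (ℂ[X][X] ⧸ Ideal.span {Φ}) _),
    Ideal.Quotient.mkₐ_eq_mk, Ideal.Quotient.eq_zero_iff_mem, Ideal.mem_span_singleton]

theorem deg_zero_of_line {H : MvPolynomial (Fin 3) ℂ} {d : ℕ} (hH : H.IsHomogeneous d)
    (h : ∀ x y : ℂ, ¬ (x = 0 ∧ y = 0) → MvPolynomial.aeval ![x, y, x + y] H ≠ 0) : d = 0 := by
  by_contra hd
  have hev : ∀ (a b c : ℂ[X]) (t : ℂ), (MvPolynomial.aeval ![a, b, c] H).eval t =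
      MvPolynomial.aeval ![a.eval t, b.eval t, c.eval t] H := by
    intro a b c t
    rw [← coe_aeval_eq_eval, ← AlgHom.comp_apply, MvPolynomial.comp_aeval]
    congr 2
    funext i
    fin_cases i <;> simp
  obtain ⟨c, hc⟩ : ∃ c, MvPolynomial.aeval (![1, X, 1 + X] : Fin 3 → ℂ[X]) H = C c := by
    refine ⟨_, eq_C_of_degree_le_zero (not_lt.1 fun hlt => ?_)⟩
    obtain ⟨z, hz⟩ := IsAlgClosed.exists_root _ hlt.ne'
    rw [IsRoot.def, hev] at hz
    exact h 1 z (by simp) (by simpa using hz)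
  have h3 : MvPolynomial.aeval (![X, 1, X + 1] : Fin 3 → ℂ[X]) H = C c * X ^ d := by
    refine eq_of_infinite_eval_eq _ _ ((Set.finite_singleton (0 : ℂ)).infinite_compl.mono ?_)
    intro t ht
    have ht0 : t ≠ 0 := ht
    have h1 := congrArg (eval t⁻¹) hc
    rw [hev] at h1
    have h2 := aeval_smul hH t 1 t⁻¹ (1 + t⁻¹)
    change _ = _
    rw [hev]
    simp only [eval_one, eval_X, eval_add, eval_C, eval_mul, eval_pow] at h1 ⊢
    rw [h1, mul_add, mul_one, mul_inv_cancel₀ ht0] at h2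
    rw [h2, mul_comm]
  have h4 := congrArg (eval 0) h3
  rw [hev] at h4
  exact h 0 1 (by simp) (by simpa [hd] using h4)

variable {n m : ℕ} {D E : Dat}

/-- The equation as a form in three variables. -/
noncomputable def Fm (D E : Dat) : MvPolynomial (Fin 3) ℂ :=
  FF D E (MvPolynomial.X 0) (MvPolynomial.X 1) (MvPolynomial.X 2)

theorem Fm_hom (h : Side n D) (k : Side m E) :
    (Fm D E).IsHomogeneous (4 * (2 * n + 1) + 2 * (2 * m + 1)) :=
  FF_isHomogeneous h k (MvPolynomial.isHomogeneous_X _ _) (MvPolynomial.isHomogeneous_X _ _)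
    (MvPolynomial.isHomogeneous_X _ _)

theorem aeval_Fm {L : Type} [CommRing L] [Algebra ℂ L] (D E : Dat) (a b c : L) :
    MvPolynomial.aeval ![a, b, c] (Fm D E) = FF D E a b c := by
  rw [Fm, map_FF]
  simp

theorem key_factor (h : Side n D) (k : Side m E) (hm : 2 ≤ m)
    (hc : Nat.Coprime (2 * m + 1) (2 * n + 1)) {H₁ H₂ : MvPolynomial (Fin 3) ℂ} {d : ℕ}
    (hH : H₂.IsHomogeneous d) (hF : Fm D E = H₁ * H₂)
    (hdvd : f1 (D.ta (C X : ℂ[X][X]) 1) (D.si (C X) 1) (E.ta X 1) (E.si X 1) ∣ th H₁) : d = 0 := by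
  have hA := h.deg
  have hY := k.deg
  have p0 := prime_f0 hA hY hc
  have p1 := prime_f1 hA hY hc
  have p2 := prime_f2 hA hY hc
  have p3 := prime_f3 hA hY hc
  have h5 : 5 ≤ (f1 (C (D.ta X 1)) (C (D.si X 1)) ((E.ta (X : ℂ[X]) 1).map C)
      ((E.si (X : ℂ[X]) 1).map C)).natDegree := by
    refine le_trans (by omega : 5 ≤ 2 * m + 1) (le_natDegree_of_ne_zero ?_)
    have : (2 : ℂ[X][X]) = C 2 := (map_ofNat C 2).symm
    simp only [f1, coeff_sub, coeff_C_mul, coeff_add, coeff_map, k.coeff_ta, k.coeff_si, this]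
    simpa using hA.neB
  have nB : ¬ f1 (C (D.ta X 1)) (C (D.si X 1)) ((E.ta (X : ℂ[X]) 1).map C)
      ((E.si (X : ℂ[X]) 1).map C) ∣ C (D.si X 1) :=
    not_dvd_small h5 (C_ne_zero.2 hA.neB) (by simp)
  have nY := not_dvd_map p1 h5 _ _ rfl hY.neA
  have nYW := not_dvd_map p1 h5 _ (E.ta X 1 + E.si X 1) rfl (fun h0 => one_ne_zero
    (hY.lin (a := 1) (b := -1) (by rw [map_neg, map_one]; linear_combination h0)).1)
  rw [Polynomial.map_add] at nYW
  rw [← ta_x, ← si_x, ← ta_y, ← si_y] at p0 p1 p2 p3 h5 nB nY nYW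
  obtain ⟨L, _, _, π, hπ⟩ := exists_generic p1
  have : CharZero L := charZero_of_injective_algebraMap (algebraMap ℂ L).injective
  have hne : ∀ p : ℂ[X][X], p ≠ 0 → p.natDegree ≤ 4 → π p ≠ 0 := fun p hp hd h0 =>
    not_dvd_small h5 hp hd ((hπ p).1 h0)
  have x0 : π (C X) ≠ 0 := hne _ (C_ne_zero.2 X_ne_zero) (by simp)
  have x1 : π (C X) + 1 ≠ 0 := by
    have := hne (C (X + C 1)) (C_ne_zero.2 (X_add_C_ne_zero 1)) (by rw [natDegree_C]; omega)
    simpa using this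
  have x2 : π (C X) - 1 ≠ 0 := by
    have := hne (C (X - C 1)) (C_ne_zero.2 (X_sub_C_ne_zero 1)) (by rw [natDegree_C]; omega)
    simpa using this
  have y0 : π X ≠ 0 := hne _ X_ne_zero (by simp)
  have y1 : π X + 1 ≠ 0 := by
    have := hne (X + C 1) (X_add_C_ne_zero 1) (by rw [natDegree_X_add_C]; omega)
    simpa using this
  have y2 : π X - 1 ≠ 0 := by
    have := hne (X - C 1) (X_sub_C_ne_zero 1) (by rw [natDegree_X_sub_C]; omega)
    simpa using this
  have hroot : f1 (D.ta (π (C X)) 1) (D.si (π (C X)) 1) (E.ta (π X) 1) (E.si (π X) 1) = 0 := by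
    have := (hπ _).2 dvd_rfl
    simpa only [f1, map_mul, map_sub, map_add, map_ofNat, map_ta, map_si, map_one] using this
  have hprod := FF_uu h k (C X : ℂ[X][X]) X
  rw [← aeval_Fm, hF, map_mul] at hprod
  change th H₁ * th H₂ = _ at hprod
  set Δ : ℂ[X][X] := del (q1 (C X) 1) (q2 (C X) 1) (q0 X 1) (q2 X 1) with hΔ
  -- the distinguished prime does not divide the second factor
  have n1 : π (th H₂) ≠ 0 := by
    intro h0
    obtain ⟨a, ha⟩ := hdvd
    obtain ⟨b, hb⟩ := (hπ _).1 h0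
    rw [ha, hb, mul_comm _ b, ← mul_assoc] at hprod
    have h1 := congrArg π (mul_right_cancel₀ p1.ne_zero hprod)
    rw [map_mul, map_mul, (hπ _).2 dvd_rfl, zero_mul, zero_mul] at h1
    have e0 : ∀ p : ℂ[X][X], aevalAeval (0 : ℂ) (0 : ℂ) p ≠ 0 → p ≠ 0 := fun p hp h0 =>
      hp (by rw [h0, map_zero])
    have r0 : π (q0 X 1) ≠ 0 := hne _ (e0 _ (by simp [q0])) (by unfold q0; compute_degree!)
    have r1 : π (q1 X 1) ≠ 0 := hne _ (e0 _ (by simp [q1])) (by unfold q1; compute_degree!)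
    have r2 : π (q2 X 1) ≠ 0 := hne _ (e0 _ (by simp [q2])) (by unfold q2; compute_degree!)
    have r3 : π Δ ≠ 0 := hne _ (e0 _ (by
      simp [hΔ, del, q0, q1, q2, map_ofNat]; norm_num)) (by
      rw [hΔ]; unfold del q0 q1 q2; compute_degree!)
    have b0' : π (D.si (C X) 1) ≠ 0 := fun h0 => nB ((hπ _).1 h0)
    have b1' : π (E.ta X 1) ≠ 0 := fun h0 => nY ((hπ _).1 h0)
    have b2' : π (E.ta X 1) + π (E.si X 1) ≠ 0 := fun h0 => nYW ((hπ _).1 (by rw [map_add, h0]))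
    have hr := (hπ _).2 dvd_rfl
    simp only [f0, f1, f2, f3, map_mul, map_pow, map_sub, map_add, map_ofNat] at h1 hr
    generalize π (D.ta (C X) 1) = A at *
    generalize π (D.si (C X) 1) = B at *
    generalize π (E.ta X 1) = Y at *
    generalize π (E.si X 1) = W at *
    have t0 : A * (W + 3 * Y) - B * (W - Y) ≠ 0 := fun h0 =>
      mul_ne_zero (mul_ne_zero b0' b1') b2' (by linear_combination (W * h0 - (W + 3 * Y) * hr) / 6)
    have t2 : 2 * A * W - B * (Y - W) ≠ 0 := fun h0 =>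
      mul_ne_zero b0' b2' (by linear_combination (h0 - 2 * hr) / 3)
    have t3 : A * W - B * (W - Y) ≠ 0 := fun h0 =>
      mul_ne_zero b0' b1' (by linear_combination (h0 - hr) / 3)
    exact mul_ne_zero (mul_ne_zero (mul_ne_zero (mul_ne_zero (mul_ne_zero (pow_ne_zero _
      (mul_ne_zero (pow_ne_zero _ (mul_ne_zero (mul_ne_zero r0 r1) r2)) r3)) (pow_ne_zero _ r3))
      (by norm_num)) t0) t2) t3 h1.symm
  -- transfer to the other three primes
  have tr : ∀ {Φ : ℂ[X][X]} {x' y' κ : L}, κ ≠ 0 → uu0 x' y' = κ * uu0 (π (C X)) (π X) →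
      uu1 x' y' = κ * uu1 (π (C X)) (π X) → uu2 x' y' = κ * uu2 (π (C X)) (π X) →
      aevalAeval (R := ℂ) x' y' Φ = 0 → ¬ Φ ∣ th H₂ := by
    rintro Φ x' y' κ hκ e0 e1 e2 hΦ ⟨b, hb⟩
    have h1 := map_th (aevalAeval (R := ℂ) x' y') H₂
    rw [hb, map_mul, hΦ, zero_mul, aevalAeval_X, aevalAeval_Y, e0, e1, e2, aeval_smul hH,
      ← map_th] at h1
    exact mul_ne_zero (pow_ne_zero _ hκ) n1 h1.symm
  have m2 : ¬ f2 (D.ta (C X : ℂ[X][X]) 1) (D.si (C X) 1) (E.ta X 1) (E.si X 1) ∣ th H₂ := by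
    obtain ⟨x', y', κ, hκ, e0, e1, e2, hp⟩ := transfer_pt h k (e1 := 1) (e2 := -1) (by norm_num)
      (by norm_num) (fun h0 => pow_ne_zero 2 x1 (by
        simp only [q0, q1, q2] at h0; linear_combination h0 / 2))
      (fun h0 => pow_ne_zero 2 y1 (by
        simp only [q0, q1, q2] at h0; linear_combination h0 / 2)) hroot
    rw [pol_two] at hp
    refine tr hκ e0 e1 e2 ?_
    simp only [f2, map_mul, map_sub, map_ofNat, map_ta, map_si, map_one, aevalAeval_X,
      aevalAeval_Y]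
    exact pow_eq_zero_iff two_ne_zero |>.1 ((mul_eq_zero.1 hp).resolve_left (by norm_num))
  have m3 : ¬ f3 (D.ta (C X : ℂ[X][X]) 1) (D.si (C X) 1) (E.ta X 1) (E.si X 1) ∣ th H₂ := by
    obtain ⟨x', y', κ, hκ, e0, e1, e2, hp⟩ := transfer_pt h k (e1 := -1) (e2 := 1) (by norm_num)
      (by norm_num) (fun h0 => pow_ne_zero 2 x2 (by
        simp only [q0, q1, q2] at h0; linear_combination h0 / 2))
      (fun h0 => pow_ne_zero 2 y0 (by
        simp only [q0, q1, q2] at h0; linear_combination -h0 / 4)) hroot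
    rw [pol_three] at hp
    refine tr hκ e0 e1 e2 ?_
    simp only [f3, map_mul, map_sub, map_ta, map_si, map_one, aevalAeval_X, aevalAeval_Y]
    exact pow_eq_zero_iff two_ne_zero |>.1 ((mul_eq_zero.1 hp).resolve_left (by norm_num))
  have m0 : ¬ f0 (D.ta (C X : ℂ[X][X]) 1) (D.si (C X) 1) (E.ta X 1) (E.si X 1) ∣ th H₂ := by
    obtain ⟨x', y', κ, hκ, e0, e1, e2, hp⟩ := transfer_pt h k (e1 := -1) (e2 := -1) (by norm_num)
      (by norm_num) (fun h0 => pow_ne_zero 2 x0 (by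
        simp only [q0, q1, q2] at h0; linear_combination h0 / 4))
      (fun h0 => pow_ne_zero 2 y2 (by
        simp only [q0, q1, q2] at h0; linear_combination -h0 / 2)) hroot
    rw [pol_zero] at hp
    refine tr hκ e0 e1 e2 ?_
    simp only [f0, map_mul, map_sub, map_add, map_ofNat, map_ta, map_si, map_one, aevalAeval_X,
      aevalAeval_Y]
    exact pow_eq_zero_iff two_ne_zero |>.1 ((mul_eq_zero.1 hp).resolve_left (by norm_num))
  have hJ := dvd_of_prime p0 m0 (dvd_of_prime p2 m2 (dvd_of_prime p3 m3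
    (dvd_of_prime p1 (fun h0 => n1 ((hπ _).2 h0)) (hprod ▸ Dvd.intro_left _ rfl))))
  refine deg_zero_of_line hH fun x y hxy h0 => ?_
  have hF0 : FF D E x y (x + y) = 0 := by rw [← aeval_Fm, hF, map_mul, h0, mul_zero]
  have hq0 : ¬ (y = 0 ∧ x + y = 0) := fun ⟨a, b⟩ => hxy ⟨by linear_combination b - a, a⟩
  obtain ⟨c0, c1, c2⟩ := b_ne_zero h k hF0 hq0 (fun ⟨a, b⟩ => hxy ⟨a, by linear_combination b - a⟩)
    hxy (fun ⟨a, b⟩ => by
      simp only [b0, b1] at a b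
      have h4 : y ^ 2 = 4 * x ^ 2 := by linear_combination a - 2 * b
      have h6 : x * (7 * x + 2 * y) = 0 := by linear_combination b - h4
      have hx : x = 0 := by
        rcases mul_eq_zero.1 h6 with h7 | h7
        · exact h7
        · exact pow_eq_zero_iff two_ne_zero |>.1 (by
            linear_combination (4 * h4 + (7 * x - 2 * y) * h7) / 33)
      exact hxy ⟨hx, pow_eq_zero_iff two_ne_zero |>.1 (by rw [h4, hx]; ring)⟩)
  obtain ⟨x', y', κ, hκ, e0, e1, e2⟩ := lift_plane hq0 c0 c1 c2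
  obtain ⟨b, hb⟩ := hJ
  have h1 := congrArg (aevalAeval (R := ℂ) x' y') hb
  rw [map_mul (aevalAeval x' y') (th H₂), map_th, aevalAeval_X, aevalAeval_Y, e0, e1, e2,
    aeval_smul hH, h0, mul_zero, zero_mul] at h1
  obtain ⟨g0, g1, g2⟩ := conic_b (conic_q x' 1) (conic_q y' 1)
  have k0 : b0 (uu1 x' y') (uu2 x' y') = κ ^ 2 * b0 y (x + y) := by
    rw [e1, e2]; simp only [b0]; ring
  have k1 : b1 (uu0 x' y') (uu2 x' y') = κ ^ 2 * b1 x (x + y) := by
    rw [e0, e2]; simp only [b1]; ring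
  have k2 : b2 (uu0 x' y') (uu1 x' y') = κ ^ 2 * b2 x y := by
    rw [e0, e1]; simp only [b2]; ring
  have j0 := (k0.symm.trans g0) ▸ mul_ne_zero (pow_ne_zero 2 hκ) c0
  have j1 := (k1.symm.trans g1) ▸ mul_ne_zero (pow_ne_zero 2 hκ) c1
  have j2 := (k2.symm.trans g2) ▸ mul_ne_zero (pow_ne_zero 2 hκ) c2
  have eΔ : aevalAeval (R := ℂ) x' y' Δ = del (q1 x' 1) (q2 x' 1) (q0 y' 1) (q2 y' 1) := by
    simp [hΔ, del, q0, q1, q2, map_ofNat]
  have eq : aevalAeval (R := ℂ) x' y' (q0 X 1 * q1 X 1 * q2 X 1 : ℂ[X][X]) =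
      q0 y' 1 * q1 y' 1 * q2 y' 1 := by
    simp [q0, q1, q2, map_ofNat]
  rw [map_mul, map_mul, map_pow, map_pow, map_mul, map_pow, eΔ, eq, map_ofNat] at h1
  have jΔ := right_ne_zero_of_mul j0
  have s : ∀ {a b : ℂ}, a ^ 2 * b ≠ 0 → a ≠ 0 := fun hab ha => hab (by rw [ha]; ring)
  exact mul_ne_zero (mul_ne_zero (pow_ne_zero _ (mul_ne_zero (pow_ne_zero _
    (mul_ne_zero (mul_ne_zero (s j1) (s j0)) (s j2))) jΔ)) (pow_ne_zero _ jΔ)) (by norm_num) h1

theorem irreducible_Fm (h : Side n D) (k : Side m E) (hm : 2 ≤ m)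
    (hc : Nat.Coprime (2 * m + 1) (2 * n + 1)) : Irreducible (Fm D E) := by
  have hG := Fm_hom h k
  have p1 := prime_f1 h.deg k.deg hc
  rw [← ta_x, ← si_x, ← ta_y, ← si_y] at p1
  have hdv : f1 (D.ta (C X : ℂ[X][X]) 1) (D.si (C X) 1) (E.ta X 1) (E.si X 1) ∣ th (Fm D E) := by
    rw [th, aeval_Fm, FF_uu h k]
    exact Dvd.intro_left _ rfl
  have hG0 : Fm D E ≠ 0 := fun h0 => one_ne_zero (key_factor h k hm hc (H₁ := 0)
    (MvPolynomial.isHomogeneous_X ℂ 0) (by rw [h0, zero_mul]) (by simp))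
  refine ⟨fun hu => p1.not_isUnit (isUnit_of_dvd_unit hdv (hu.map th)), fun G₁ G₂ hmul => ?_⟩
  have h1 : G₁ ≠ 0 := by
    rintro rfl
    exact hG0 (by rw [hmul, zero_mul])
  have h2 : G₂ ≠ 0 := by
    rintro rfl
    exact hG0 (by rw [hmul, mul_zero])
  have hd : 4 * (2 * n + 1) + 2 * (2 * m + 1) = G₁.totalDegree + G₂.totalDegree := by
    rw [← hG.totalDegree hG0, hmul, MvPolynomial.totalDegree_mul_of_isDomain h1 h2]
  have ht : Fm D E = MvPolynomial.homogeneousComponent G₁.totalDegree G₁ *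
      MvPolynomial.homogeneousComponent G₂.totalDegree G₂ := by
    rw [← top_component_mul, ← hmul, ← hd, MvPolynomial.homogeneousComponent_eq_self hG]
  have hunit : ∀ H : MvPolynomial (Fin 3) ℂ, H ≠ 0 → H.totalDegree = 0 → IsUnit H := by
    intro H hH hH0
    rw [MvPolynomial.totalDegree_eq_zero_iff_eq_C] at hH0
    rw [hH0] at hH ⊢
    refine IsUnit.map MvPolynomial.C (isUnit_iff_ne_zero.2 ?_)
    intro h
    exact hH (by rw [h, MvPolynomial.C_0])
  rw [ht, map_mul] at hdv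
  rcases p1.dvd_or_dvd hdv with h3 | h3
  · exact Or.inr (hunit _ h2 (key_factor h k hm hc
      (MvPolynomial.homogeneousComponent_isHomogeneous _ G₂) ht h3))
  · exact Or.inl (hunit _ h1 (key_factor h k hm hc
      (MvPolynomial.homogeneousComponent_isHomogeneous _ G₁) (ht.trans (mul_comm _ _)) h3))

end Pool.Agent.Lib.MP_81ecef_ag.K4
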