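import Mathlib
import Pool.Agent.Lib.MP_81ecef_ag.L3.Three
import Pool.Agent.Lib.MP_81ecef_ag.K4.Irr

/-! The singular points of the plane curve. -/

namespace Pool.Agent.Lib.MP_81ecef_ag.K4

open Pool.Agent.Lib.MP_81ecef_ag.L3 MvPolynomial

variable {n m : ℕ} {D E : Dat}

theorem mem_van {v : Fin 3 → ℂ} {f : MvPolynomial (Fin 3) ℂ} : f ∈ van v ↔ aeval v f = 0 := by
  rw [van, RingHom.mem_ker]
  rfl

theorem van_isMaximal (v : Fin 3 → ℂ) : (van v).IsMaximal :=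
  RingHom.ker_isMaximal_of_surjective _ fun c => ⟨C c, eval_C c⟩

theorem Side.sqrt (h : Side n D) {t : ℂ} (ht : ev D.T t 1 = 0) : ∃ a0 a1 a2 κ : ℂ, κ ≠ 0 ∧
    a0 ^ 2 = t ∧ a1 ^ 2 = t - 1 ∧ a2 ^ 2 = t + 1 ∧ a0 * ev D.P0 t 1 = κ ∧ a1 * ev D.P1 t 1 = κ ∧
    a2 * ev D.P2 t 1 = κ := by
  have hs : D.si t 1 = 0 := by rw [Dat.si, ht]; ring
  have h0 : D.ta t 1 ≠ 0 := fun h1 => one_ne_zero (h.nz _ _ h1 hs).2
  have e0 : D.ta t 1 = t * ev D.P0 t 1 ^ 2 := rfl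
  have e1 := h.i1 t 1
  have e2 := h.i2 t 1
  rw [hs, sub_zero] at e1
  rw [hs, add_zero] at e2
  obtain ⟨κ, hκ⟩ := IsAlgClosed.exists_pow_nat_eq (D.ta t 1) (n := 2) (by norm_num)
  have key : ∀ {a p : ℂ}, D.ta t 1 = a * p ^ 2 → (κ / p) ^ 2 = a ∧ κ / p * p = κ := by
    intro a p hp
    have hp0 : p ≠ 0 := fun h1 => h0 (by rw [hp, h1]; ring)
    exact ⟨by rw [div_pow, hκ, hp]; field_simp, div_mul_cancel₀ _ hp0⟩
  exact ⟨_, _, _, κ, fun h1 => h0 (by rw [← hκ, h1]; ring), (key e0).1, (key e1).1, (key e2).1,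
    (key e0).2, (key e1).2, (key e2).2⟩

theorem six_point (h : Side n D) (k : Side m E) {t t' : ℂ} (ht : ev D.T t 1 = 0)
    (ht' : ev E.T t' 1 = 0) (hd : 3 * t * t' + t + t' - 1 ≠ 0) :
    ∃ (v : Fin 3 → ℂ) (κ κ' : ℂ), (∀ i, v i ≠ 0) ∧ κ ≠ 0 ∧ κ' ≠ 0 ∧
      tA (v 0) (v 1) (v 2) = κ * t ∧ sA (v 0) (v 1) (v 2) = κ ∧ b1 (v 0) (v 2) = κ' * t' ∧
      sB (v 0) (v 1) (v 2) = κ' ∧ Fm D E ∈ van v ^ 6 := by
  obtain ⟨a0, a1, a2, κ, hκ, s0, s1, s2, p0, p1, p2⟩ := h.sqrt ht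
  obtain ⟨r0, r1, r2, κ', hκ', z0, z1, z2, c0, c1, c2⟩ := k.sqrt ht'
  have ha : 2 * a0 ^ 2 = a1 ^ 2 + a2 ^ 2 := by rw [s0, s1, s2]; ring
  have hr : 2 * r0 ^ 2 = r1 ^ 2 + r2 ^ 2 := by rw [z0, z1, z2]; ring
  have nz : ∀ {a p c : ℂ}, a * p = c → c ≠ 0 → a ≠ 0 ∧ p ≠ 0 := fun e hc =>
    ⟨left_ne_zero_of_mul (e ▸ hc), right_ne_zero_of_mul (e ▸ hc)⟩
  have hΔ : del a1 a2 r0 r2 ≠ 0 := by
    rw [del, s1, s2, z0, z2]
    exact fun h0 => hd (by linear_combination h0)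
  have hρ : (r0 * r1 * r2) ^ 2 * del a1 a2 r0 r2 ≠ 0 := mul_ne_zero (pow_ne_zero _ (mul_ne_zero
    (mul_ne_zero (nz c0 hκ').1 (nz c1 hκ').1) (nz c2 hκ').1)) hΔ
  have da : a0 ^ 2 - a1 ^ 2 = 1 := by rw [s0, s1]; ring
  have dr : r0 ^ 2 - r1 ^ 2 = 1 := by rw [z0, z1]; ring
  obtain ⟨g0, g1, g2, g3⟩ := conic_t ha hr
  rw [s0] at g0
  rw [da, mul_one] at g1
  rw [z0] at g2
  rw [dr, mul_one] at g3
  refine ⟨![a0 * r0 * r2, a1 * r1 * r2, a2 * r1 * r0], _, _, ?_, hρ, hΔ, g0, g1, g2, g3, ?_⟩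
  · intro i
    fin_cases i
    · exact mul_ne_zero (mul_ne_zero (nz p0 hκ).1 (nz c0 hκ').1) (nz c2 hκ').1
    · exact mul_ne_zero (mul_ne_zero (nz p1 hκ).1 (nz c1 hκ').1) (nz c2 hκ').1
    · exact mul_ne_zero (mul_ne_zero (nz p2 hκ).1 (nz c1 hκ').1) (nz c0 hκ').1
  set φ : MvPolynomial (Fin 3) ℂ →ₐ[ℂ] ℂ := aeval ![a0 * r0 * r2, a1 * r1 * r2, a2 * r1 * r0]
    with hφ
  have x0 : φ (X 0) = a0 * r0 * r2 := by simp [hφ]
  have x1 : φ (X 1) = a1 * r1 * r2 := by simp [hφ]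
  have x2 : φ (X 2) = a2 * r1 * r0 := by simp [hφ]
  have eAv : ∀ {f : MvPolynomial (Fin 2) ℂ}, f.IsHomogeneous n → φ (eA f (X 0) (X 1) (X 2)) =
      ((r0 * r1 * r2) ^ 2 * del a1 a2 r0 r2) ^ n * ev f t 1 := fun hf => by
    rw [map_eA, x0, x1, x2, (conic_e ha hr hf).1, da, s0]
  have eBv : ∀ {f : MvPolynomial (Fin 2) ℂ}, f.IsHomogeneous m → φ (eB f (X 0) (X 1) (X 2)) =
      del a1 a2 r0 r2 ^ m * ev f t' 1 := fun hf => by
    rw [map_eB, x0, x1, x2, (conic_e ha hr hf).2, dr, z0]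
  have hK := pow_ne_zero n hρ
  have hK' := pow_ne_zero m hΔ
  generalize ((r0 * r1 * r2) ^ 2 * del a1 a2 r0 r2) ^ n = K at *
  generalize del a1 a2 r0 r2 ^ m = K' at *
  have hω : K * K' ^ 2 * κ * κ' ^ 2 ≠ 0 :=
    mul_ne_zero (mul_ne_zero (mul_ne_zero hK (pow_ne_zero _ hK')) hκ) (pow_ne_zero _ hκ')
  have U0 : φ (X 0 * eA D.P0 (X 0) (X 1) (X 2) * (eB E.P0 (X 0) (X 1) (X 2) *
      eB E.P2 (X 0) (X 1) (X 2))) = K * K' ^ 2 * κ * κ' ^ 2 := by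
    rw [map_mul, map_mul, map_mul, x0, eAv h.h0, eBv k.h0, eBv k.h2, ← p0, sq κ']
    nth_rewrite 1 [← c0]
    rw [← c2]
    ring
  have U1 : φ (X 1 * eA D.P1 (X 0) (X 1) (X 2) * (eB E.P1 (X 0) (X 1) (X 2) *
      eB E.P2 (X 0) (X 1) (X 2))) = K * K' ^ 2 * κ * κ' ^ 2 := by
    rw [map_mul, map_mul, map_mul, x1, eAv h.h1, eBv k.h1, eBv k.h2, ← p1, sq κ']
    nth_rewrite 1 [← c1]
    rw [← c2]
    ring
  have U2 : φ (X 2 * eA D.P2 (X 0) (X 1) (X 2) * (eB E.P1 (X 0) (X 1) (X 2) *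
      eB E.P0 (X 0) (X 1) (X 2))) = K * K' ^ 2 * κ * κ' ^ 2 := by
    rw [map_mul, map_mul, map_mul, x2, eAv h.h2, eBv k.h1, eBv k.h0, ← p2, sq κ']
    nth_rewrite 1 [← c1]
    rw [← c0]
    ring
  have := van_isMaximal ![a0 * r0 * r2, a1 * r1 * r2, a2 * r1 * r0]
  refine FF_mem_six h k ?_ ?_ ?_ ?_ rfl rfl rfl ?_ ?_ ?_ <;> rw [mem_van, ← hφ]
  · rw [eAv h.hT, ht, mul_zero]
  · rw [eBv k.hT, ht', mul_zero]
  · have e : E.ta (b1 (X 0) (X 2)) (sB (X 0) (X 1) (X 2)) =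
        b1 (X 0) (X 2) * eB E.P0 (X 0) (X 1) (X 2 : MvPolynomial (Fin 3) ℂ) ^ 2 := rfl
    have e' : φ (b1 (X 0) (X 2)) = del a1 a2 r0 r2 * t' := by
      rw [← g2]
      simp only [b1, map_add, map_mul, map_pow, map_ofNat, x0, x2]
    rw [e, map_mul, map_pow, eBv k.h0, e', ← z0]
    exact mul_ne_zero (mul_ne_zero hΔ (pow_ne_zero _ (nz c0 hκ').1))
      (pow_ne_zero _ (mul_ne_zero hK' (by rw [z0]; exact (nz c0 hκ').2)))
  · rw [map_mul, map_mul, eBv k.h0, eBv k.h1, eBv k.h2]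
    exact mul_ne_zero (mul_ne_zero (mul_ne_zero hK' (nz c0 hκ').2) (mul_ne_zero hK' (nz c1 hκ').2))
      (mul_ne_zero hK' (nz c2 hκ').2)
  · rw [map_add, U1, U0]
    exact fun h0 => hω (by linear_combination h0 / 2)
  · rw [map_add, U2, U0]
    exact fun h0 => hω (by linear_combination h0 / 2)
  · rw [b0, map_add, map_mul, map_pow, map_pow, U1, U2, map_ofNat]
    exact fun h0 => pow_ne_zero 2 hω (by linear_combination h0 / 3)

theorem Fm_mem_q (h : Side n D) (E : Dat) {v : Fin 3 → ℂ}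
    (hv : (v 1 = 0 ∧ v 2 = 0) ∨ (v 0 = 0 ∧ v 2 = 0) ∨ (v 0 = 0 ∧ v 1 = 0)) :
    Fm D E ∈ van v ^ (2 * (2 * n + 1)) := by
  have key : ∀ {i j : Fin 3}, v i = 0 → v j = 0 → ∀ a b c : MvPolynomial (Fin 3) ℂ,
      a * X i ^ 2 + b * (X i * X j) + c * X j ^ 2 ∈ van v ^ 2 := by
    intro i j hi hj a b c
    have h1 : (X i : MvPolynomial (Fin 3) ℂ) ∈ van v := by simp [mem_van, hi]
    have h2 : (X j : MvPolynomial (Fin 3) ℂ) ∈ van v := by simp [mem_van, hj]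
    exact Ideal.add_mem _ (Ideal.add_mem _ (Ideal.mul_mem_left _ _ (Ideal.pow_mem_pow h1 2))
      (Ideal.mul_mem_left _ _ (by rw [sq]; exact Ideal.mul_mem_mul h1 h2)))
      (Ideal.mul_mem_left _ _ (Ideal.pow_mem_pow h2 2))
  rw [pow_mul]
  rcases hv with ⟨a, b⟩ | ⟨a, b⟩ | ⟨a, b⟩
  · have c0 : b0 (X 1) (X 2) ∈ van v ^ 2 := by
      convert key a b 1 0 2 using 1
      simp only [b0]
      ring
    refine FF_mem_q h E (Ideal.mul_mem_left _ _ c0) (Ideal.sub_mem _ (Ideal.mul_mem_left _ _ c0) ?_)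
      (Ideal.mul_mem_left _ _ (Ideal.mul_mem_right _ _ c0))
      (Ideal.mul_mem_left _ _ (Ideal.mul_mem_right _ _ c0)) (Ideal.mul_mem_right _ _ ?_)
    · convert key a b (b1 (X 0) (X 2)) 0 0 using 1
      ring
    · convert key a b 0 1 0 using 1
      ring
  · have c1 : b1 (X 0) (X 2) ∈ van v ^ 2 := by
      convert key a b 2 0 1 using 1
      simp only [b1]
      ring
    have c : X 0 ^ 2 * b0 (X 1) (X 2) ∈ van v ^ 2 := by
      convert key a b (b0 (X 1) (X 2)) 0 0 using 1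
      ring
    refine FF_mem_q h E c (Ideal.sub_mem _ c (Ideal.mul_mem_left _ _ c1))
      (Ideal.mul_mem_left _ _ (Ideal.mul_mem_left _ _ c1)) (Ideal.mul_mem_right _ _ ?_)
      (Ideal.mul_mem_left _ _ (Ideal.mul_mem_right _ _ c1))
    convert key a b 0 1 0 using 1
    ring
  · have c2 : b2 (X 0) (X 1) ∈ van v ^ 2 := by
      convert key a b 4 0 (-1) using 1
      simp only [b2]
      ring
    have c : X 0 ^ 2 * b0 (X 1) (X 2) ∈ van v ^ 2 := by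
      convert key a b (b0 (X 1) (X 2)) 0 0 using 1
      ring
    refine FF_mem_q h E c (Ideal.sub_mem _ c ?_) (Ideal.mul_mem_right _ _ ?_)
      (Ideal.mul_mem_left _ _ (Ideal.mul_mem_left _ _ c2))
      (Ideal.mul_mem_left _ _ (Ideal.mul_mem_left _ _ c2))
    · convert key a b 0 0 (b1 (X 0) (X 2)) using 1
      ring
    · convert key a b 0 1 0 using 1
      ring

theorem Fm_mem_p (h : Side n D) (k : Side m E) {v : Fin 3 → ℂ} (h1 : v 1 ^ 2 = 4 * v 0 ^ 2)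
    (h2 : v 2 ^ 2 = -2 * v 0 ^ 2) : Fm D E ∈ van v ^ (2 * n + 1 + (2 * m + 1)) := by
  refine FF_mem_p h k ?_ ?_ ?_ <;>
    simp only [mem_van, b0, b1, b2, map_add, map_sub, map_mul, map_pow, map_ofNat, aeval_X, h1,
      h2] <;> ring

theorem mk_eq {v w : Fin 3 → ℂ} {hv : v ≠ 0} {hw : w ≠ 0}
    (h : Projectivization.mk ℂ v hv = Projectivization.mk ℂ w hw) :
    ∃ a : ℂ, a ≠ 0 ∧ ∀ i, v i = a * w i := by
  obtain ⟨a, ha⟩ := (Projectivization.mk_eq_mk_iff ℂ v w hv hw).1 h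
  exact ⟨a, a.ne_zero, fun i => by rw [← ha]; rfl⟩

theorem hConst_lt_family {F : MvPolynomial (Fin 3) ℂ} {d : ℕ} (hF : F.IsHomogeneous d)
    (hirr : Irreducible F) {c : ℝ} (hc : -4 ≤ c) {ι : Type} [Fintype ι] [Nonempty ι]
    (v : ι → Fin 3 → ℂ) (hv : ∀ i, v i ≠ 0) (w : ι → ℕ)
    (hinj : ∀ i j, ∀ a : ℂ, a ≠ 0 → (∀ l, v i l = a * v j l) → i = j) (h2 : ∀ i, 2 ≤ w i)
    (hw : ∀ i, F ∈ van (v i) ^ w i) (hd : (d : ℝ) ^ 2 < ∑ i, ((w i : ℝ) ^ 2 + c)) :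
    (Sing F).Finite ∧ (Sing F).Nonempty ∧ hConst F < c := by
  classical
  have hm : ∀ i, w i ≤ mult F (Projectivization.mk ℂ (v i) (hv i)) := fun i =>
    le_mult_of_mem hF hirr.ne_zero (hv i) (hw i)
  refine hConst_lt hF hirr hc (Finset.univ.image fun i => Projectivization.mk ℂ (v i) (hv i))
    (mult F) (Finset.univ_nonempty.image _) ?_ (fun _ _ => le_rfl) ?_
  · intro x hx
    obtain ⟨i, -, rfl⟩ := Finset.mem_image.1 hx
    exact (h2 i).trans (hm i)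
  · rw [Finset.sum_image fun i _ j _ hij => by
      obtain ⟨a, ha, h⟩ := mk_eq hij
      exact hinj i j a ha h]
    refine hd.trans_le (Finset.sum_le_sum fun i _ => ?_)
    have : (w i : ℝ) ≤ mult F (Projectivization.mk ℂ (v i) (hv i)) := by exact_mod_cast hm i
    have h0 : (0 : ℝ) ≤ w i := Nat.cast_nonneg _
    nlinarith

theorem exists_pairs (s s' : Finset ℂ) : ∃ S : Finset (ℂ × ℂ),
    s.card * s'.card ≤ S.card + s.card ∧
    ∀ p ∈ S, p.1 ∈ s ∧ p.2 ∈ s' ∧ 3 * p.1 * p.2 + p.1 + p.2 - 1 ≠ 0 := by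
  classical
  refine ⟨(s ×ˢ s').filter fun p => ¬ (3 * p.1 * p.2 + p.1 + p.2 - 1 = 0), ?_, fun p hp => ?_⟩
  · have h1 := Finset.card_filter_add_card_filter_not (s := s ×ˢ s')
      fun p : ℂ × ℂ => 3 * p.1 * p.2 + p.1 + p.2 - 1 = 0
    have h2 : ((s ×ˢ s').filter fun p : ℂ × ℂ => 3 * p.1 * p.2 + p.1 + p.2 - 1 = 0).card ≤
        s.card := by
      refine Finset.card_le_card_of_injOn Prod.fst (fun p hp => ?_) fun p hp q hq hpq => ?_
      · exact (Finset.mem_product.1 (Finset.mem_filter.1 hp).1).1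
      · have e1 := (Finset.mem_filter.1 hp).2
        have e2 := (Finset.mem_filter.1 hq).2
        refine Prod.ext hpq ?_
        rw [← hpq] at e2
        by_contra hne
        have h3 : 3 * p.1 + 1 = 0 := (mul_eq_zero.1 (by linear_combination e1 - e2 :
          (3 * p.1 + 1) * (p.2 - q.2) = 0)).resolve_right (sub_ne_zero.2 hne)
        have : (4 : ℂ) = 0 := by linear_combination h3 - 3 * e1 + 3 * p.2 * h3
        norm_num at this
    rw [Finset.card_product] at h1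
    omega
  · obtain ⟨h1, h2⟩ := Finset.mem_filter.1 hp
    exact ⟨(Finset.mem_product.1 h1).1, (Finset.mem_product.1 h1).2, h2⟩

theorem curve_bound (h : Side n D) (k : Side m E) (hm : 2 ≤ m)
    (hc : Nat.Coprime (2 * m + 1) (2 * n + 1)) {c : ℝ} (hc4 : -4 ≤ c)
    (hd : 8 * (2 * n + 1) * (2 * m + 1) < 7 * c + (n * m - n) * (36 + c)) :
    (Sing (Fm D E)).Finite ∧ (Sing (Fm D E)).Nonempty ∧ hConst (Fm D E) < c := by
  obtain ⟨s, hs, hsT⟩ := h.roots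
  obtain ⟨s', hs', hsT'⟩ := k.roots
  obtain ⟨S, hS, hSp⟩ := exists_pairs s s'
  choose v κ κ' v0 k0 k0' e0 e1 e2 e3 hmem using fun p : {p // p ∈ S} =>
    six_point h k (hsT _ (hSp p.1 p.2).1) (hsT' _ (hSp p.1 p.2).2.1) (hSp p.1 p.2).2.2
  obtain ⟨r, hr⟩ := IsAlgClosed.exists_pow_nat_eq (-2 : ℂ) (n := 2) (by norm_num)
  have hr0 : r ≠ 0 := by
    rintro rfl
    norm_num at hr
  let V : Fin 7 → Fin 3 → ℂ := ![![1, 0, 0], ![0, 1, 0], ![0, 0, 1], ![1, 2, r], ![1, 2, -r],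
    ![1, -2, r], ![1, -2, -r]]
  let W : Fin 7 → ℕ := ![2 * (2 * n + 1), 2 * (2 * n + 1), 2 * (2 * n + 1),
    2 * n + 1 + (2 * m + 1), 2 * n + 1 + (2 * m + 1), 2 * n + 1 + (2 * m + 1),
    2 * n + 1 + (2 * m + 1)]
  have mixed : ∀ (i : Fin 7) (p : {p // p ∈ S}) (a : ℂ), (∀ l, v p l = a * V i l) → False := by
    intro i p a hl
    have z0 := v0 p 0
    have z1 := v0 p 1
    have z3 := k0' p
    rw [← e3 p] at z3
    rw [hl 0] at z0 z3
    rw [hl 1] at z1 z3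
    rw [hl 2] at z3
    fin_cases i
    · exact z1 (by simp [V])
    · exact z0 (by simp [V])
    · exact z0 (by simp [V])
    all_goals
      refine z3 ?_
      simp only [V, sB, b0, b1]
      simp
      linear_combination (-a ^ 2) * hr
  refine hConst_lt_family (Fm_hom h k) (irreducible_Fm h k hm hc) hc4 (Sum.elim V v) ?_
    (Sum.elim W fun _ => 6) ?_ ?_ ?_ ?_
  · rintro (i | p) h0
    · have h1 := congrFun h0 0
      have h2 := congrFun h0 1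
      have h3 := congrFun h0 2
      fin_cases i <;> simp [V] at h1 h2 h3
    · exact v0 p 0 (congrFun h0 0)
  · rintro (i | p) (j | q) a ha hl
    · have h1 := hl 0
      have h2 := hl 1
      have h3 := hl 2
      fin_cases i <;> fin_cases j <;> simp [V] at h1 h2 h3 ⊢ <;> grind
    · exact (mixed i q a⁻¹ fun l => by
        have : V i l = a * v q l := hl l
        rw [this, ← mul_assoc, inv_mul_cancel₀ ha, one_mul]).elim
    · exact (mixed j p a hl).elim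
    · have l0 : v p 0 = a * v q 0 := hl 0
      have l1 : v p 1 = a * v q 1 := hl 1
      have l2 : v p 2 = a * v q 2 := hl 2
      have t0 : κ p * p.1.1 = a ^ 4 * (κ q * q.1.1) := by
        rw [← e0, ← e0, l0, l1, l2]; simp only [tA, b0]; ring
      have t1 : κ p = a ^ 4 * κ q := by
        rw [← e1, ← e1, l0, l1, l2]; simp only [sA, b0, b1]; ring
      have t2 : κ' p * p.1.2 = a ^ 2 * (κ' q * q.1.2) := by
        rw [← e2, ← e2, l0, l2]; simp only [b1]; ring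
      have t3 : κ' p = a ^ 2 * κ' q := by
        rw [← e3, ← e3, l0, l1, l2]; simp only [sB, b0, b1]; ring
      congr 1
      refine Subtype.ext (Prod.ext (mul_left_cancel₀ (k0 p) ?_) (mul_left_cancel₀ (k0' p) ?_))
      · rw [t0, t1]; ring
      · rw [t2, t3]; ring
  · rintro (i | p)
    · fin_cases i <;> simp [W] <;> omega
    · simp
  · rintro (i | p)
    · fin_cases i
      · exact Fm_mem_q h E (Or.inl ⟨rfl, rfl⟩)
      · exact Fm_mem_q h E (Or.inr (Or.inl ⟨rfl, rfl⟩))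
      · exact Fm_mem_q h E (Or.inr (Or.inr ⟨rfl, rfl⟩))
      all_goals exact Fm_mem_p h k (by simp [V]; norm_num) (by simp [V, hr])
    · exact hmem p
  · rw [Fintype.sum_sum_type]
    simp only [Sum.elim_inl, Sum.elim_inr, Finset.sum_const, Finset.card_univ, Fintype.card_coe,
      nsmul_eq_mul, Fin.sum_univ_seven, W, Matrix.cons_val_zero, Matrix.cons_val_one,
      Matrix.cons_val]
    rw [hs, hs'] at hS
    have h1 : (n : ℝ) * m - n ≤ S.card := by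
      have : (n : ℝ) * m ≤ S.card + n := by exact_mod_cast hS
      linarith
    have h2 := mul_le_mul_of_nonneg_right h1 (by linarith : (0 : ℝ) ≤ 36 + c)
    push_cast
    nlinarith

end Pool.Agent.Lib.MP_81ecef_ag.K4
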